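import Pool.Agent.Helper417.Kl.Near

set_option autoImplicit false

namespace Pool.Agent.Helper417.Kl

open Filter Topology Metric Set

variable {D : Set CP3} {Γ : Subgroup (Equiv.Perm CP3)} {T : Set CP3 → Set CP3}
  {K O : Set (E × E)}

lemma differentiable_prod {V : Type*} [NormedAddCommGroup V] [NormedSpace ℂ V] {ι : Type*}
    (s : Finset ι) (f : ι → V → ℂ) (hf : ∀ i, Differentiable ℂ (f i)) :
    Differentiable ℂ (fun y => ∏ i ∈ s, f i y) := by
  classical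
  induction s using Finset.induction_on with
  | empty => simp
  | insert a s ha ih =>
    simp only [Finset.prod_insert ha]
    exact (hf a).mul ih

/-- a polynomial vanishing on the cone over the lines of the complement, but not at a given point
of the cone over `D` -/
lemma exists_poly (hfin : (LL D).Finite) {v0 : E} (hv0 : v0 ∈ cone D) :
    ∃ f : E → ℂ, Differentiable ℂ f ∧ f v0 ≠ 0 ∧ ∀ y, ∀ L ∈ LL D, y ∈ cone L → f y = 0 := by
  have h1 : ∀ L : Set CP3, ∃ l : E →L[ℂ] ℂ, L ∈ LL D → l v0 ≠ 0 ∧ ∀ y ∈ cone L, l y = 0 := by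
    intro L
    by_cases hL : L ∈ LL D
    · obtain ⟨⟨W, hW, rfl⟩, hL2⟩ := hL
      have h2 : v0 ∉ W := by
        intro h3
        have h4 := mem_cone.1 hv0
        exact hL2 ((pt_mem_iff h4.1).2 h3) h4.2
      obtain ⟨f, hf, hf2⟩ := Submodule.exists_le_ker_of_notMem h2
      refine ⟨LinearMap.toContinuousLinearMap f, fun _ => ⟨hf, fun y hy => ?_⟩⟩
      have h5 := mem_cone.1 hy
      exact hf2 ((pt_mem_iff h5.1).1 h5.2)
    · exact ⟨0, fun h => absurd h hL⟩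
  choose l hl using h1
  refine ⟨fun y => ∏ L ∈ hfin.toFinset, l L y, ?_, ?_, ?_⟩
  · exact differentiable_prod _ (fun L y => l L y) fun L => (l L).differentiable
  · rw [Finset.prod_ne_zero_iff]
    intro L hL
    exact (hl L (hfin.mem_toFinset.1 hL)).1
  · intro y L hL hy
    exact Finset.prod_eq_zero (hfin.mem_toFinset.2 hL) ((hl L hL).2 y hy)

/-- near each of its points the complement is contained in a single line -/
theorem Dat.at_point (h : Dat D Γ) (hf : Fam D Γ K O) (hT : Lab D T)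
    (hUc : IsPreconnected (UU D)) (hfin : (LL D).Finite) (hcov : Dᶜ ⊆ ⋃₀ LL D) {p : CP3}
    (hp : p ∈ Dᶜ) : ∃ L ∈ LL D, ∃ N ∈ 𝓝 p, N ∩ Dᶜ ⊆ L := by
  obtain ⟨e, he, rfl⟩ := exists_pt p
  set N0 : Set CP3 := (closure {x | x ∈ D ∧ ∀ L ∈ LL D, x ∉ UL Γ O T L} ∪
    closure {x | ∃ L ∈ LL D, ∃ L' ∈ LL D, L ≠ L' ∧ x ∈ UL Γ O T L ∧ x ∈ UL Γ O T L'})ᶜ with hN0
  have hN0o : IsOpen N0 := (isClosed_closure.union isClosed_closure).isOpen_compl
  have hpN0 : pt e ∈ N0 := by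
    rintro (h1 | h1)
    · exact h.not_mem_closure_A hf hT hp h1
    · exact h.not_mem_closure_B hf hT hUc hfin hp h1
  obtain ⟨r, hr, hball⟩ := Metric.nhds_basis_ball.mem_iff.1
    ((isOpen_cone hN0o).mem_nhds (mem_cone.2 ⟨he, hpN0⟩))
  obtain ⟨x0, hx0⟩ := h.nonempty
  obtain ⟨v0, hv0, rfl⟩ := exists_pt x0
  have hv0D : v0 ∈ cone D := mem_cone.2 ⟨hv0, hx0⟩
  obtain ⟨f, hfd, hf0, hfL⟩ := exists_poly hfin hv0D
  set X : Set E := {y | y ∈ ball e r ∧ f y ≠ 0} with hX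
  have hXc : IsPreconnected X := Mer.ThinAux.ball_diff hfd.differentiableOn
  -- density
  have hdense : ball e r ⊆ closure X := by
    intro y hy
    rw [_root_.mem_closure_iff]
    intro V hV hyV
    set R := dist e v0 + r with hR
    have hsub : ball e r ⊆ ball v0 R := by
      intro z hz
      rw [mem_ball] at *
      calc dist z v0 ≤ dist z e + dist e v0 := dist_triangle _ _ _
        _ < R := by rw [hR]; linarith
    have hRpos : 0 < R := by
      rw [hR]; positivity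
    obtain ⟨z, ⟨⟨hz1, hz2⟩, hz3⟩, hz4⟩ := Mer.ThinAux.ball_nonzero (x := v0) hRpos
      (g := f) hfd.differentiableOn (fun h => hf0 h.self_of_nhds) (hV.inter isOpen_ball)
      ⟨y, ⟨hyV, hy⟩, hsub hy⟩
    exact ⟨z, hz1, hz2, hz4⟩
  have hXD : ∀ y ∈ X, y ∈ cone D ∧ pt y ∈ N0 := by
    rintro y ⟨hy1, hy2⟩
    have h1 := mem_cone.1 (hball hy1)
    refine ⟨mem_cone.2 ⟨h1.1, ?_⟩, h1.2⟩
    by_contra hcon
    obtain ⟨L, hL, hyL⟩ := hcov hcon
    exact hy2 (hfL y L hL (mem_cone.2 ⟨h1.1, hyL⟩))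
  have hXU : ∀ y ∈ X, ∃ L ∈ LL D, pt y ∈ UL Γ O T L := by
    intro y hy
    obtain ⟨h1, h2⟩ := hXD y hy
    by_contra hcon
    push Not at hcon
    exact h2 (Or.inl (subset_closure ⟨(mem_cone.1 h1).2, hcon⟩))
  have hXu : ∀ y ∈ X, ∀ L ∈ LL D, ∀ L' ∈ LL D, pt y ∈ UL Γ O T L → pt y ∈ UL Γ O T L' → L = L' := by
    intro y hy L hL L' hL' h1 h2
    by_contra hne
    exact (hXD y hy).2 (Or.inr (subset_closure ⟨L, hL, L', hL', hne, h1, h2⟩))
  have hXne : X.Nonempty := by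
    have h1 := hdense (mem_ball_self hr)
    exact closure_nonempty_iff.1 ⟨e, h1⟩
  obtain ⟨y0, hy0⟩ := hXne
  obtain ⟨Ls, hLs, hy0L⟩ := hXU y0 hy0
  have hXL : ∀ y ∈ X, pt y ∈ UL Γ O T Ls := by
    have hopen : ∀ L, IsOpen (cone (UL Γ O T L)) := fun L => isOpen_cone (h.isOpen_UL hf hT L)
    have h1 := isPreconnected_iff_subset_of_disjoint.1 hXc (cone (UL Γ O T Ls))
      (⋃ L ∈ {L | L ∈ LL D ∧ L ≠ Ls}, cone (UL Γ O T L)) (hopen _)
      (isOpen_biUnion fun L _ => hopen L) (by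
        intro y hy
        obtain ⟨L, hL, hyL⟩ := hXU y hy
        have hy0 := (mem_cone.1 (hXD y hy).1).1
        by_cases hne : L = Ls
        · left
          rw [hne] at hyL
          exact mem_cone.2 ⟨hy0, hyL⟩
        · right
          exact mem_iUnion₂.2 ⟨L, ⟨hL, hne⟩, mem_cone.2 ⟨hy0, hyL⟩⟩) (by
        rw [eq_empty_iff_forall_notMem]
        rintro y ⟨hy, hy1, hy2⟩
        obtain ⟨L, ⟨hL, hne⟩, hyL⟩ := mem_iUnion₂.1 hy2
        exact hne (hXu y hy L hL Ls hLs (mem_cone.1 hyL).2 (mem_cone.1 hy1).2))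
    rcases h1 with h1 | h1
    · exact fun y hy => (mem_cone.1 (h1 hy)).2
    · exfalso
      obtain ⟨L, ⟨hL, hne⟩, hyL⟩ := mem_iUnion₂.1 (h1 hy0)
      exact hne (hXu y0 hy0 L hL Ls hLs (mem_cone.1 hyL).2 hy0L)
  -- the neighbourhood
  obtain ⟨h1, h2⟩ := section_tendsto (l := 𝓝 (pt e)) he tendsto_id
  refine ⟨Ls, hLs, {x | proj x e ∈ ball e r ∧ (proj x e ≠ 0 ∧ pt (proj x e) = x)}, ?_, ?_⟩
  · exact (h1.eventually_mem (ball_mem_nhds e hr)).and h2
  · rintro x ⟨⟨hx1, hx2, hx3⟩, hxD⟩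
    obtain ⟨y, hy, hylim⟩ := mem_closure_iff_seq_limit.1 (hdense hx1)
    have hlim : Tendsto (fun n => pt (y n)) atTop (𝓝 x) := by
      have := (continuousAt_pt hx2).tendsto.comp hylim
      rwa [hx3] at this
    have h3 : ∀ n, ∃ g ∈ Γ, ∃ q ∈ O, pt (y n) = g (pt q.1) ∧ g '' ln q.1 q.2 ⊆ T Ls :=
      fun n => hXL (y n) (hy n)
    choose g hg q hq hyq hgq using h3
    have hlim2 : Tendsto (fun n => g n (pt (q n).1)) atTop (𝓝 x) := by
      simpa only [← hyq] using hlim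
    obtain ⟨φ, hφ, L, hL, hL2, hxL, hev⟩ := h.approach hf.compact hf.subU hg
      (fun n => hf.sub (hq n)) hxD hlim2
    obtain ⟨n, hn⟩ := (hev _ (hT.isOpen L) (hT.sub L)).exists
    have h4 : L = Ls := hT.uniq L ⟨hL, hL2⟩ Ls hLs _
      (h.isLine_image (hg _) (hf.subU (hf.sub (hq _)))) hn (hgq _)
    rwa [← h4]

/-- through each point of the complement there is a line in the complement -/
lemma Dat.compl_subset (h : Dat D Γ) (hf : Fam D Γ K O) (hd : Dense D) : Dᶜ ⊆ ⋃₀ LL D := by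
  intro p hp
  obtain ⟨x, hx, hlim⟩ := mem_closure_iff_seq_limit.1 (hd p)
  choose g hg q hq hxq using fun n => hf.cov (x n) (hx n)
  have hlim2 : Tendsto (fun n => g n (pt (q n).1)) atTop (𝓝 p) := by
    simpa only [← hxq] using hlim
  obtain ⟨φ, hφ, L, hL, hL2, hpL, hev⟩ := h.approach hf.compact hf.subU hg
    (fun n => hf.sub (hq n)) hp hlim2
  exact ⟨L, ⟨hL, hL2⟩, hpL⟩

end Pool.Agent.Helper417.Kl
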