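import Pool.Agent.Helper417.Kl.Defs

set_option autoImplicit false

namespace Pool.Agent.Helper417.Kl

open Projectivization MeasureTheory Filter Topology Metric Set
open scoped LinearAlgebra.Projectivization

lemma dist_eq (x y : CP3) : dist x y = ‖proj x - proj y‖ := by
  rw [← dist_eq_norm]; rfl

lemma isometry_proj : Isometry proj := Isometry.of_dist_eq fun x y => by
  rw [dist_eq_norm, dist_eq]

lemma continuous_proj : Continuous proj := isometry_proj.continuous

/-- homogeneous coordinates -/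
noncomputable def pt (z : E) : CP3 :=
  if h : z ≠ 0 then mk ℂ z h else mk ℂ (EuclideanSpace.single 0 1) (by simp)

lemma pt_of_ne {z : E} (h : z ≠ 0) : pt z = mk ℂ z h := by simp [pt, h]

lemma pt_eq_iff {z w : E} (hz : z ≠ 0) (hw : w ≠ 0) : pt z = pt w ↔ ∃ c : ℂ, c • w = z := by
  rw [pt_of_ne hz, pt_of_ne hw, mk_eq_mk_iff']

lemma pt_smul {c : ℂ} (hc : c ≠ 0) (z : E) : pt (c • z) = pt z := by
  by_cases hz : z = 0
  · simp [hz]
  · rw [pt_eq_iff (smul_ne_zero hc hz) hz]
    exact ⟨c, rfl⟩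

lemma submodule_pt {z : E} (hz : z ≠ 0) : (pt z).submodule = ℂ ∙ z := by
  rw [pt_of_ne hz, submodule_mk]

lemma pt_rep (x : CP3) : pt x.rep = x := by
  rw [pt_of_ne x.rep_nonzero, mk_rep]

lemma exists_pt (x : CP3) : ∃ z : E, z ≠ 0 ∧ pt z = x := ⟨x.rep, x.rep_nonzero, pt_rep x⟩

lemma pt_of_mem {x : CP3} {v : E} (hv : v ∈ x.submodule) (h0 : v ≠ 0) : pt v = x := by
  obtain ⟨z, hz, rfl⟩ := exists_pt x
  rw [submodule_pt hz, Submodule.mem_span_singleton] at hv
  rw [pt_eq_iff h0 hz]
  exact hv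

lemma mem_submodule_pt {v : E} : v ∈ (pt v).submodule := by
  by_cases h : v = 0
  · simp [h]
  · rw [submodule_pt h]; exact Submodule.mem_span_singleton_self v

lemma proj_mem (x : CP3) (z : E) : proj x z ∈ x.submodule :=
  Submodule.starProjection_apply_mem _ _

lemma proj_pt_self (z : E) : proj (pt z) z = z :=
  Submodule.starProjection_eq_self_iff.2 mem_submodule_pt

lemma proj_eq_self {x : CP3} {z : E} (h : z ∈ x.submodule) : proj x z = z :=
  Submodule.starProjection_eq_self_iff.2 h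

lemma pt_proj {x : CP3} {z : E} (h : proj x z ≠ 0) : pt (proj x z) = x :=
  pt_of_mem (proj_mem x z) h

lemma proj_pt_apply (z w : E) (hz : z ≠ 0) :
    proj (pt z) w = (inner ℂ z w / ((‖z‖ ^ 2 : ℝ) : ℂ)) • z := by
  have : proj (pt z) w = (ℂ ∙ z).starProjection w := by
    unfold proj
    congr 2
    exact submodule_pt hz
  rw [this]
  exact Submodule.starProjection_singleton ℂ w

lemma proj_pt {z : E} (hz : z ≠ 0) :
    proj (pt z) = (((‖z‖ ^ 2 : ℝ) : ℂ)⁻¹) • (innerSL ℂ z).smulRight z := by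
  ext1 w
  rw [proj_pt_apply z w hz]
  simp only [ContinuousLinearMap.smul_apply, ContinuousLinearMap.smulRight_apply, smul_smul,
    innerSL_apply_apply]
  congr 1
  rw [div_eq_mul_inv, mul_comm]

lemma norm_proj_sub (x y : CP3) (z : E) : ‖proj x z - proj y z‖ ≤ dist x y * ‖z‖ := by
  rw [dist_eq]
  exact (proj x - proj y).le_opNorm z

lemma norm_proj_le (x : CP3) : ‖proj x‖ ≤ 1 := Submodule.starProjection_norm_le _

lemma continuousAt_pt {z : E} (hz : z ≠ 0) : ContinuousAt pt z := by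
  have hi : IsInducing proj := isometry_proj.isEmbedding.isInducing
  rw [hi.continuousAt_iff]
  have h1 : ContinuousAt (fun z : E => (((‖z‖ ^ 2 : ℝ) : ℂ)⁻¹) • (innerSL ℂ z).smulRight z) z := by
    have h2 : ContinuousAt (fun z : E => (((‖z‖ ^ 2 : ℝ) : ℂ)⁻¹)) z := by
      apply ContinuousAt.inv₀
      · exact (Complex.continuous_ofReal.comp (continuous_norm.pow 2)).continuousAt
      · have : ‖z‖ ≠ 0 := norm_ne_zero_iff.2 hz
        exact_mod_cast pow_ne_zero 2 this
    have h3 : Continuous (fun z : E => (innerSL ℂ z).smulRight z) := by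
      have : Continuous fun z : E => ((ContinuousLinearMap.smulRightL ℂ E E) (innerSL ℂ z)) z := by
        have h4 : Continuous fun z : E => innerSL ℂ z := (innerSL ℂ).continuous
        exact ((ContinuousLinearMap.smulRightL ℂ E E).continuous.comp h4).clm_apply continuous_id
      exact this
    exact h2.smul h3.continuousAt
  refine h1.congr ?_
  filter_upwards [isOpen_ne.mem_nhds hz] with w hw
  exact (proj_pt hw).symm

lemma continuousOn_pt : ContinuousOn pt {z | z ≠ 0} := fun _ hz =>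
  (continuousAt_pt hz).continuousWithinAt

lemma mem_cone {S : Set CP3} {z : E} : z ∈ cone S ↔ z ≠ 0 ∧ pt z ∈ S := by
  constructor
  · rintro ⟨hz, h⟩
    exact ⟨hz, by rwa [pt_of_ne hz]⟩
  · rintro ⟨hz, h⟩
    exact ⟨hz, by rwa [pt_of_ne hz] at h⟩

lemma smul_mem_cone {S : Set CP3} {z : E} {c : ℂ} (hc : c ≠ 0) (h : z ∈ cone S) :
    c • z ∈ cone S := by
  rw [mem_cone] at *
  exact ⟨smul_ne_zero hc h.1, by rw [pt_smul hc]; exact h.2⟩

lemma isOpen_cone {S : Set CP3} (hS : IsOpen S) : IsOpen (cone S) := by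
  rw [isOpen_iff_mem_nhds]
  intro z hz
  rw [mem_cone] at hz
  have h1 := (continuousAt_pt hz.1).preimage_mem_nhds (hS.mem_nhds hz.2)
  filter_upwards [h1, isOpen_ne.mem_nhds hz.1] with w hw1 hw2
  rw [mem_cone]
  exact ⟨hw2, hw1⟩

/-- a continuous local section of `pt` -/
lemma section_tendsto {α : Type*} {l : Filter α} {x : α → CP3} {z : E} (hz : z ≠ 0)
    (h : Tendsto x l (𝓝 (pt z))) :
    Tendsto (fun n => proj (x n) z) l (𝓝 z) ∧ ∀ᶠ n in l, proj (x n) z ≠ 0 ∧ pt (proj (x n) z) = x n := by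
  have h1 : Tendsto (fun n => proj (x n) z) l (𝓝 z) := by
    have h2 : Continuous fun y : CP3 => proj y z := continuous_proj.clm_apply continuous_const
    have h3 := (h2.tendsto (pt z)).comp h
    rwa [proj_pt_self] at h3
  refine ⟨h1, ?_⟩
  filter_upwards [h1.eventually_ne hz] with n hn
  exact ⟨hn, pt_proj hn⟩

instance : CompactSpace CP3 := by
  constructor
  have h1 : (univ : Set CP3) = pt '' (sphere (0 : E) 1) := by
    symm
    rw [eq_univ_iff_forall]
    intro x
    obtain ⟨z, hz, rfl⟩ := exists_pt x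
    have hn : ‖z‖ ≠ 0 := norm_ne_zero_iff.2 hz
    refine ⟨((‖z‖ : ℝ) : ℂ)⁻¹ • z, ?_, ?_⟩
    · rw [mem_sphere_zero_iff_norm, norm_smul, norm_inv, Complex.norm_real, norm_norm]
      field_simp
    · apply pt_smul
      simpa using hn
  rw [h1]
  apply (isCompact_sphere _ _).image_of_continuousOn
  intro z hz
  apply (continuousAt_pt _).continuousWithinAt
  rintro rfl
  simp at hz

end Pool.Agent.Helper417.Kl
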