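import Mathlib

/-!
# Covering domains in complex projective three-space: definitions
-/

set_option autoImplicit false

namespace Pool.Agent.Helper417.Kl

open Projectivization MeasureTheory
open scoped LinearAlgebra.Projectivization

/-- `ℂ⁴` with its standard Hermitian inner product. -/
abbrev E : Type := EuclideanSpace ℂ (Fin 4)

/-- Complex projective three-space `ℂℙ³`: the complex lines through the origin of `ℂ⁴`. -/
abbrev CP3 : Type := ℙ ℂ E

/-- The orthogonal projection of `ℂ⁴` onto the complex line `x ∈ ℂℙ³`. -/
noncomputable def proj (x : CP3) : E →L[ℂ] E := x.submodule.starProjection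

lemma proj_injective : Function.Injective proj := fun _ _ h =>
  submodule_injective (Submodule.starProjection_inj.1 h)

/-- The metric of `ℂℙ³`: the distance of `x` and `y` is the operator norm of the difference of the
orthogonal projections of `ℂ⁴` onto the complex lines `x` and `y`. This is `sin d_FS(x, y)`, where
`d_FS` is the Fubini-Study distance (see `dist_mk_sq` in `Metric.lean`). It defines the
usual topology of `ℂℙ³`, and the same Hausdorff measures as `d_FS`. -/
noncomputable instance : MetricSpace CP3 := MetricSpace.induced proj proj_injective inferInstance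

noncomputable instance : MeasurableSpace CP3 := borel CP3
instance : BorelSpace CP3 := ⟨rfl⟩

/-- The cone over `S ⊆ ℂℙ³`: the preimage of `S` in `ℂ⁴ ∖ {0}`. -/
def cone (S : Set CP3) : Set E := {z | ∃ hz : z ≠ 0, mk ℂ z hz ∈ S}

/-- A self-map `F` of `D ⊆ ℂℙ³` is holomorphic: in homogeneous coordinates it is locally given by
holomorphic functions (without common zeros). -/
def IsHolomorphicSelfMap (D : Set CP3) (F : D → D) : Prop :=
  ∀ z ∈ cone D, ∃ U : Set E, IsOpen U ∧ z ∈ U ∧ ∃ G : E → E, DifferentiableOn ℂ G U ∧
    ∀ y ∈ U, ∃ (hy : y ≠ 0) (hyD : mk ℂ y hy ∈ D) (hG : G y ≠ 0),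
      ((F ⟨mk ℂ y hy, hyD⟩ : D) : CP3) = mk ℂ (G y) hG

/-- `D ⊆ ℂℙ³` covers a compact complex threefold: there is a group `Γ` of biholomorphic self-maps
of `D` (a group of bijections of `D` all of whose elements, hence also all of whose inverses, are
holomorphic) which acts freely and properly discontinuously on `D`, and whose quotient `D/Γ` (the
complex threefold covered by `D`) is compact (and Hausdorff). -/
def CoversCompactThreefold (D : Set CP3) : Prop :=
  ∃ Γ : Subgroup (Equiv.Perm D),
    (∀ γ ∈ Γ, IsHolomorphicSelfMap D γ) ∧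
    (∀ γ ∈ Γ, ∀ p : D, γ p = p → γ = 1) ∧
    (∀ K : Set D, IsCompact K → {γ : Equiv.Perm D | γ ∈ Γ ∧ ((γ '' K) ∩ K).Nonempty}.Finite) ∧
    CompactSpace (Quotient (MulAction.orbitRel Γ D)) ∧
    T2Space (Quotient (MulAction.orbitRel Γ D))

/-- `L ⊆ ℂℙ³` is a (complex projective) line: the set of the points of `ℂℙ³` lying, as complex
lines through the origin, in a two-dimensional linear subspace of `ℂ⁴`. -/
def IsLine (L : Set CP3) : Prop :=
  ∃ W : Submodule ℂ E, Module.finrank ℂ W = 2 ∧ L = {x : CP3 | x.submodule ≤ W}

end Pool.Agent.Helper417.Kl
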