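import Pool.Agent.Helper417.Kl.Basic

set_option autoImplicit false

namespace Pool.Agent.Helper417.Kl

open Filter Topology Metric Set

/-- the determinant of four vectors -/
noncomputable def dt (v0 v1 v2 v3 : E) : ℂ :=
  Matrix.det !![v0 0, v0 1, v0 2, v0 3; v1 0, v1 1, v1 2, v1 3; v2 0, v2 1, v2 2, v2 3;
    v3 0, v3 1, v3 2, v3 3]

lemma dt_ne_zero {v0 v1 v2 v3 : E} (h : ∀ x0 x1 x2 x3 : ℂ,
    x0 • v0 + x1 • v1 + x2 • v2 + x3 • v3 = 0 → x0 = 0 ∧ x1 = 0 ∧ x2 = 0 ∧ x3 = 0) :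
    dt v0 v1 v2 v3 ≠ 0 := by
  intro h0
  obtain ⟨x, hx, hx2⟩ := Matrix.exists_vecMul_eq_zero_iff.2 h0
  have h1 : x 0 • v0 + x 1 • v1 + x 2 • v2 + x 3 • v3 = 0 := by
    ext i
    have h2 := congrFun hx2 i
    simp only [Matrix.vecMul, dotProduct, Fin.sum_univ_four] at h2
    fin_cases i <;> simpa using h2
  obtain ⟨a, b, c, d⟩ := h _ _ _ _ h1
  apply hx
  ext i
  fin_cases i <;> simpa

lemma dt_eq (v0 v1 v2 v3 : E) : dt v0 v1 v2 v3 =
    v0 0 * (v1 1 * (v2 2 * v3 3 - v2 3 * v3 2) - v1 2 * (v2 1 * v3 3 - v2 3 * v3 1)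
      + v1 3 * (v2 1 * v3 2 - v2 2 * v3 1))
    - v0 1 * (v1 0 * (v2 2 * v3 3 - v2 3 * v3 2) - v1 2 * (v2 0 * v3 3 - v2 3 * v3 0)
      + v1 3 * (v2 0 * v3 2 - v2 2 * v3 0))
    + v0 2 * (v1 0 * (v2 1 * v3 3 - v2 3 * v3 1) - v1 1 * (v2 0 * v3 3 - v2 3 * v3 0)
      + v1 3 * (v2 0 * v3 1 - v2 1 * v3 0))
    - v0 3 * (v1 0 * (v2 1 * v3 2 - v2 2 * v3 1) - v1 1 * (v2 0 * v3 2 - v2 2 * v3 0)
      + v1 2 * (v2 0 * v3 1 - v2 1 * v3 0)) := by
  simp [dt, Matrix.det_succ_row_zero, Fin.sum_univ_succ, Fin.succAbove]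
  ring

lemma dt_gauge (u x1 x2 x3 : ℂ) (g p1 p2 p3 : E) :
    dt (u • g) (x1 • g + u • p1) (x2 • g + u • p2) (x3 • g + u • p3) = u ^ 4 * dt g p1 p2 p3 := by
  simp only [dt_eq, PiLp.add_apply, PiLp.smul_apply, smul_eq_mul]
  ring

lemma dt_inf (s k ρ : ℂ) (g p1 p2 p3 : E) :
    dt g (k • (ρ • g - s • p1)) (k • p2) (k • p3) = - s * k ^ 3 * dt g p1 p2 p3 := by
  simp only [dt_eq, PiLp.sub_apply, PiLp.smul_apply, smul_eq_mul]
  ring

lemma continuous_dt {X : Type*} [TopologicalSpace X] {f0 f1 f2 f3 : X → E} {x : X}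
    (h0 : ContinuousAt f0 x) (h1 : ContinuousAt f1 x) (h2 : ContinuousAt f2 x)
    (h3 : ContinuousAt f3 x) : ContinuousAt (fun y => dt (f0 y) (f1 y) (f2 y) (f3 y)) x := by
  have hc : ∀ i : Fin 4, Continuous fun v : E => v i := fun i => by fun_prop
  have e0 : ∀ i, ContinuousAt (fun y => f0 y i) x := fun i => (hc i).continuousAt.comp h0
  have e1 : ∀ i, ContinuousAt (fun y => f1 y i) x := fun i => (hc i).continuousAt.comp h1
  have e2 : ∀ i, ContinuousAt (fun y => f2 y i) x := fun i => (hc i).continuousAt.comp h2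
  have e3 : ∀ i, ContinuousAt (fun y => f3 y i) x := fun i => (hc i).continuousAt.comp h3
  simp only [dt_eq]
  fun_prop

lemma differentiable_dt {X : Type*} [NormedAddCommGroup X] [NormedSpace ℂ X] {f0 f1 f2 f3 : X → E}
    {x : X} (h0 : DifferentiableAt ℂ f0 x) (h1 : DifferentiableAt ℂ f1 x)
    (h2 : DifferentiableAt ℂ f2 x) (h3 : DifferentiableAt ℂ f3 x) :
    DifferentiableAt ℂ (fun y => dt (f0 y) (f1 y) (f2 y) (f3 y)) x := by
  have hc : ∀ i : Fin 4, Differentiable ℂ fun v : E => v i := fun i => by fun_prop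
  have e0 : ∀ i, DifferentiableAt ℂ (fun y => f0 y i) x := fun i => (hc i _).comp x h0
  have e1 : ∀ i, DifferentiableAt ℂ (fun y => f1 y i) x := fun i => (hc i _).comp x h1
  have e2 : ∀ i, DifferentiableAt ℂ (fun y => f2 y i) x := fun i => (hc i _).comp x h2
  have e3 : ∀ i, DifferentiableAt ℂ (fun y => f3 y i) x := fun i => (hc i _).comp x h3
  simp only [dt_eq]
  fun_prop

end Pool.Agent.Helper417.Kl
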