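import Pool.Agent.Helper417.Kl.Lines

set_option autoImplicit false

namespace Pool.Agent.Helper417.Kl

open Filter Topology Metric Set

/-- a group of biholomorphic self-maps of `D` acting properly discontinuously and cocompactly -/
structure Dat (D : Set CP3) (Γ : Subgroup (Equiv.Perm CP3)) : Prop where
  isOpen : IsOpen D
  nonempty : D.Nonempty
  pres : ∀ g ∈ Γ, ∀ x ∈ D, g x ∈ D
  holo : ∀ g ∈ Γ, HoloOn D g
  pd : ∀ K : Set CP3, IsCompact K → K ⊆ D → {g | g ∈ Γ ∧ (g '' K ∩ K).Nonempty}.Finite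
  coc : ∃ K : Set CP3, IsCompact K ∧ K ⊆ D ∧ ∀ x ∈ D, ∃ g ∈ Γ, ∃ y ∈ K, g y = x

variable {D : Set CP3} {Γ : Subgroup (Equiv.Perm CP3)}

/-- the image of a line in `D` is a line in `D` -/
lemma Dat.image_line (h : Dat D Γ) {g : Equiv.Perm CP3} (hg : g ∈ Γ) {p : E × E} (hp : p ∈ UU D) :
    ∃ q ∈ UU D, g '' ln p.1 p.2 = ln q.1 q.2 := by
  obtain ⟨A, B, h1, h2⟩ := Kl.line_image (h.holo g hg) (h.holo g⁻¹ (Γ.inv_mem hg)) (h.pres g hg)
    (fun x _ => by simp) (a := p.1) (b := p.2) hp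
  have hAB : Ind A B := h1
  have hpi := (mem_UU_iff.1 hp).1
  have h3 : g '' ln p.1 p.2 = ln A B := by
    ext x
    constructor
    · rintro ⟨y, hy, rfl⟩
      obtain ⟨s, t, hst, rfl⟩ := (mem_ln hpi).1 hy
      exact (mem_ln hAB).2 ⟨s, t, hst, h2 s t hst⟩
    · intro hx
      obtain ⟨s, t, hst, rfl⟩ := (mem_ln hAB).1 hx
      exact ⟨_, (mem_ln hpi).2 ⟨s, t, hst, rfl⟩, h2 s t hst⟩
  refine ⟨(A, B), mem_UU_iff.2 ⟨hAB, ?_⟩, h3⟩
  show ln A B ⊆ D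
  rw [← h3]
  rintro _ ⟨y, hy, rfl⟩
  exact h.pres g hg y ((mem_UU_iff.1 hp).2 hy)

lemma Dat.isLine_image (h : Dat D Γ) {g : Equiv.Perm CP3} (hg : g ∈ Γ) {p : E × E}
    (hp : p ∈ UU D) : IsLine (g '' ln p.1 p.2) := by
  obtain ⟨q, hq, h1⟩ := h.image_line hg hp
  rw [h1]
  exact (mem_UU_iff.1 hq).1.isLine

/-- images of lines under divergent sequences of `Γ` accumulate to lines in the complement -/
lemma Dat.limit_line (h : Dat D Γ) {g : ℕ → Equiv.Perm CP3} (hg : ∀ n, g n ∈ Γ)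
    (hgc : Tendsto g atTop cofinite) {p : ℕ → E × E} {p0 : E × E} (hp : Tendsto p atTop (𝓝 p0))
    (hp0 : p0 ∈ UU D) (hpU : ∀ n, p n ∈ UU D) :
    ∃ φ : ℕ → ℕ, StrictMono φ ∧ ∃ q : ℕ → E × E, ∃ q0 ∈ ONs, (∀ n, q n ∈ ONs) ∧
      (∀ n, g (φ n) '' ln (p (φ n)).1 (p (φ n)).2 = ln (q n).1 (q n).2) ∧
      Tendsto q atTop (𝓝 q0) ∧ ln q0.1 q0.2 ⊆ Dᶜ := by
  have h1 : ∀ n, ∃ r ∈ ONs, g n '' ln (p n).1 (p n).2 = ln r.1 r.2 := fun n =>
    (h.isLine_image (hg n) (hpU n)).exists_ON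
  choose r hr hr2 using h1
  obtain ⟨q0, hq0, φ, hφ, hlim⟩ := isCompact_ONs.tendsto_subseq hr
  refine ⟨φ, hφ, r ∘ φ, q0, hq0, fun n => hr _, fun n => hr2 _, hlim, ?_⟩
  rintro y hy hyD
  obtain ⟨K1, hK1, hyK1, hK1D⟩ := exists_compact_subset h.isOpen hyD
  have hl0 : IsCompact (ln p0.1 p0.2) := (mem_UU_iff.1 hp0).1.isLine.isClosed.isCompact
  obtain ⟨K2, hK2, hlK2, hK2D⟩ := exists_compact_between hl0 h.isOpen (mem_UU_iff.1 hp0).2
  have hK : IsCompact (K1 ∪ K2) := hK1.union hK2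
  have hfin := h.pd _ hK (union_subset hK1D hK2D)
  have e1 : ∀ᶠ n in atTop, ln (p (φ n)).1 (p (φ n)).2 ⊆ interior K2 :=
    eventually_ln_subset (mem_UU_iff.1 hp0).1 (hp.comp hφ.tendsto_atTop) isOpen_interior hlK2
  have e2 : ∀ᶠ n in atTop, (ln ((r ∘ φ) n).1 ((r ∘ φ) n).2 ∩ interior K1).Nonempty :=
    eventually_ln_inter (ONs.ind hq0) hlim isOpen_interior ⟨y, hy, hyK1⟩
  have e3 : ∀ᶠ n in atTop, g (φ n) ∉ {g | g ∈ Γ ∧ (g '' (K1 ∪ K2) ∩ (K1 ∪ K2)).Nonempty} :=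
    (hgc.comp hφ.tendsto_atTop).eventually hfin.compl_mem_cofinite
  obtain ⟨n, hn1, ⟨x, hx1, hx2⟩, hn3⟩ := (e1.and (e2.and e3)).exists
  apply hn3
  refine ⟨hg _, ?_⟩
  rw [Function.comp_apply, ← hr2] at hx1
  obtain ⟨z, hz, rfl⟩ := hx1
  exact ⟨_, ⟨z, Or.inr (interior_subset (hn1 hz)), rfl⟩, Or.inl (interior_subset hx2)⟩

lemma mem_of_tendsto_ln {q : ℕ → E × E} {q0 : E × E} (hq0 : Ind q0.1 q0.2)
    (hq : Tendsto q atTop (𝓝 q0)) {x : ℕ → CP3} {p : CP3} (hx : ∀ n, x n ∈ ln (q n).1 (q n).2)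
    (hxp : Tendsto x atTop (𝓝 p)) : p ∈ ln q0.1 q0.2 := by
  by_contra hcon
  have h1 : (ln q0.1 q0.2)ᶜ ∈ 𝓝 p := hq0.isLine.isClosed.isOpen_compl.mem_nhds hcon
  obtain ⟨r, hr, hr2⟩ := Metric.nhds_basis_closedBall.mem_iff.1 h1
  have h2 : ∀ᶠ n in atTop, ln (q n).1 (q n).2 ⊆ (closedBall p r)ᶜ := by
    apply eventually_ln_subset hq0 hq isClosed_closedBall.isOpen_compl
    rwa [subset_compl_comm]
  have h3 : ∀ᶠ n in atTop, x n ∈ closedBall p r := hxp.eventually_mem (closedBall_mem_nhds p hr)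
  obtain ⟨n, hn1, hn2⟩ := (h2.and h3).exists
  exact hn1 (hx n) hn2

/-- a compact family of lines in `D` such that the `Γ`-translates of its members cover `D` -/
structure Fam (D : Set CP3) (Γ : Subgroup (Equiv.Perm CP3)) (K O : Set (E × E)) : Prop where
  compact : IsCompact K
  isOpen : IsOpen O
  sub : O ⊆ K
  subU : K ⊆ UU D
  cov : ∀ x ∈ D, ∃ g ∈ Γ, ∃ q ∈ O, x = g (pt q.1)

lemma Dat.exists_fam (h : Dat D Γ) (hthr : ∀ x ∈ D, ∃ p ∈ UU D, pt p.1 = x) :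
    ∃ K O, Fam D Γ K O := by
  obtain ⟨C, hC, hCD, hcov⟩ := h.coc
  have h1 : ∀ x ∈ C, ∃ p : E × E, ∃ r > 0, closedBall p r ⊆ UU D ∧ pt p.1 = x := by
    intro x hx
    obtain ⟨p, hp, hpx⟩ := hthr x (hCD hx)
    obtain ⟨r, hr, hr2⟩ := Metric.nhds_basis_closedBall.mem_iff.1 ((isOpen_UU h.isOpen).mem_nhds hp)
    exact ⟨p, r, hr, hr2, hpx⟩
  choose! p r hr hr2 hpx using h1
  have h2 : ∀ x ∈ C, {y : CP3 | (proj y (p x).1, (p x).2) ∈ ball (p x) (r x)} ∈ 𝓝 x := by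
    intro x hx
    have hc : Continuous fun y : CP3 => (proj y (p x).1, (p x).2) :=
      (continuous_proj.clm_apply continuous_const).prodMk continuous_const
    apply hc.continuousAt.preimage_mem_nhds
    have : (proj x (p x).1, (p x).2) = p x := by
      conv_lhs => rw [← hpx x hx]
      rw [hpx x hx]
      have : proj x (p x).1 = (p x).1 := by
        conv_lhs => rw [← hpx x hx]
        rw [hpx x hx]
        nth_rewrite 1 [← hpx x hx]
        exact proj_pt_self _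
      rw [this]
    rw [this]
    exact ball_mem_nhds _ (hr x hx)
  obtain ⟨t, ht, htC⟩ := hC.elim_nhds_subcover _ h2
  refine ⟨⋃ x ∈ t, closedBall (p x) (r x), ⋃ x ∈ t, ball (p x) (r x), ?_, ?_, ?_, ?_, ?_⟩
  · exact t.isCompact_biUnion fun x _ => isCompact_closedBall _ _
  · exact isOpen_biUnion fun x _ => isOpen_ball
  · exact iUnion₂_mono fun x _ => ball_subset_closedBall
  · exact iUnion₂_subset fun x hx => hr2 x (ht x hx)
  · intro x hx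
    obtain ⟨g, hg, y, hy, rfl⟩ := hcov x hx
    obtain ⟨z, hz, hz2⟩ := mem_iUnion₂.1 (htC hy)
    refine ⟨g, hg, _, mem_iUnion₂.2 ⟨z, hz, hz2⟩, ?_⟩
    have h3 := hr2 z (ht z hz) (ball_subset_closedBall hz2)
    have h4 : proj y (p z).1 ≠ 0 := by
      have := (mem_UU_iff.1 h3).1 1 0 (Or.inl one_ne_zero)
      simpa using this
    show g y = g (pt (proj y (p z).1))
    rw [pt_proj h4]

lemma pt_mem_of_UU {p : E × E} (hp : p ∈ UU D) : pt p.1 ∈ D := by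
  have := hp 1 0 (Or.inl one_ne_zero)
  rw [one_smul, zero_smul, add_zero] at this
  exact (mem_cone.1 this).2

lemma ne_zero_of_UU {p : E × E} (hp : p ∈ UU D) : p.1 ≠ 0 := by
  have := hp 1 0 (Or.inl one_ne_zero)
  rw [one_smul, zero_smul, add_zero] at this
  exact (mem_cone.1 this).1

lemma pt_mem_ln {p : E × E} (hp : p.1 ≠ 0) : pt p.1 ∈ ln p.1 p.2 :=
  (pt_mem_iff hp).2 (Submodule.subset_span (by simp))

/-- if `g n (pt (q n).1)` tends to a point outside `D`, then `g n` tends to infinity -/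
lemma Dat.tendsto_cofinite (h : Dat D Γ) {K : Set (E × E)} (hK : IsCompact K) (hKU : K ⊆ UU D)
    {g : ℕ → Equiv.Perm CP3} (hg : ∀ n, g n ∈ Γ) {q : ℕ → E × E} (hq : ∀ n, q n ∈ K)
    {p : CP3} (hp : p ∉ D) (hlim : Tendsto (fun n => g n (pt (q n).1)) atTop (𝓝 p)) :
    Tendsto g atTop cofinite := by
  rw [Tendsto, le_cofinite_iff_eventually_ne]
  intro g0
  rw [eventually_map]
  by_contra hcon
  rw [not_eventually] at hcon
  have hcon2 : ∃ᶠ n in atTop, g n = g0 := hcon.mono fun n hn => not_not.1 hn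
  have hg0 : g0 ∈ Γ := by
    obtain ⟨n, hn⟩ := hcon2.exists
    rw [← hn]; exact hg n
  have hC : IsCompact ((fun z : E × E => g0 (pt z.1)) '' K) := by
    apply hK.image_of_continuousOn
    intro z hz
    have hz' := hKU hz
    have h1 : ContinuousAt (fun y => g0 (pt y)) z.1 :=
      (h.holo g0 hg0).continuousAt_comp (mem_cone.2 ⟨ne_zero_of_UU hz', pt_mem_of_UU hz'⟩)
    exact (ContinuousAt.comp (f := Prod.fst) h1 continuousAt_fst).continuousWithinAt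
  have h2 : p ∈ (fun z : E × E => g0 (pt z.1)) '' K := by
    apply hC.isClosed.mem_of_frequently_of_tendsto _ hlim
    refine hcon2.mono fun n hn => ?_
    exact ⟨q n, hq n, by rw [hn]⟩
  obtain ⟨z, hz, rfl⟩ := h2
  exact hp (h.pres g0 hg0 _ (pt_mem_of_UU (hKU hz)))

/-- the basic approach lemma -/
lemma Dat.approach (h : Dat D Γ) {K : Set (E × E)} (hK : IsCompact K) (hKU : K ⊆ UU D)
    {g : ℕ → Equiv.Perm CP3} (hg : ∀ n, g n ∈ Γ) {q : ℕ → E × E} (hq : ∀ n, q n ∈ K)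
    {p : CP3} (hp : p ∉ D) (hlim : Tendsto (fun n => g n (pt (q n).1)) atTop (𝓝 p)) :
    ∃ φ : ℕ → ℕ, StrictMono φ ∧ ∃ L, IsLine L ∧ L ⊆ Dᶜ ∧ p ∈ L ∧
      ∀ N, IsOpen N → L ⊆ N → ∀ᶠ n in atTop, g (φ n) '' ln (q (φ n)).1 (q (φ n)).2 ⊆ N := by
  have h1 := h.tendsto_cofinite hK hKU hg hq hp hlim
  obtain ⟨q0, hq0, φ, hφ, hlim2⟩ := hK.tendsto_subseq hq
  obtain ⟨ψ, hψ, r, r0, hr0, hr, hr2, hr3, hr4⟩ := h.limit_line (g := g ∘ φ) (fun n => hg _)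
    (h1.comp hφ.tendsto_atTop) hlim2 (hKU hq0) (fun n => hKU (hq _))
  refine ⟨φ ∘ ψ, hφ.comp hψ, _, (ONs.ind hr0).isLine, hr4, ?_, ?_⟩
  · apply mem_of_tendsto_ln (ONs.ind hr0) hr3 (x := fun n => g (φ (ψ n)) (pt (q (φ (ψ n))).1))
    · intro n
      rw [← hr2]
      exact ⟨_, pt_mem_ln (ne_zero_of_UU (hKU (hq _))), rfl⟩
    · exact hlim.comp (hφ.comp hψ).tendsto_atTop
  · intro N hN hLN
    filter_upwards [eventually_ln_subset (ONs.ind hr0) hr3 hN hLN] with n hn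
    rw [← hr2] at hn
    exact hn

end Pool.Agent.Helper417.Kl
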