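import Pool.Agent.Helper417.Kl.Meas

set_option autoImplicit false

namespace Pool.Agent.Helper417.Kl

open Filter Topology Metric Set MeasureTheory
open scoped ENNReal NNReal

variable {D : Set CP3}

lemma norm_inner_proj_sub {A B : E} (hA : ‖A‖ = 1) (hB : ‖B‖ = 1) (x y : CP3) :
    ‖(inner ℂ B (proj x A) - inner ℂ B (proj y A) : ℂ)‖ ≤ dist x y := by
  rw [← inner_sub_right]
  calc ‖(inner ℂ B (proj x A - proj y A) : ℂ)‖ ≤ ‖B‖ * ‖proj x A - proj y A‖ := norm_inner_le_norm _ _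
    _ ≤ 1 * (dist x y * ‖A‖) := by
      rw [hB]
      have := norm_proj_sub x y A
      linarith
    _ = dist x y := by rw [hA]; ring

lemma norm_inner_proj_le {A B : E} (hA : ‖A‖ = 1) (hB : ‖B‖ = 1) (x : CP3) :
    ‖(inner ℂ B (proj x A) : ℂ)‖ ≤ 1 := by
  calc ‖(inner ℂ B (proj x A) : ℂ)‖ ≤ ‖B‖ * ‖proj x A‖ := norm_inner_le_norm _ _
    _ ≤ 1 * (‖proj x‖ * ‖A‖) := by
      rw [hB]
      have := (proj x).le_opNorm A
      linarith
    _ ≤ 1 := by
      rw [hA]
      have := norm_proj_le x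
      linarith

lemma rat_dist {A B : E} (hA : ‖A‖ = 1) (hB : ‖B‖ = 1) {x y : CP3}
    (hx : 1 / 2 ≤ ‖(inner ℂ A (proj x A) : ℂ)‖) (hy : 1 / 2 ≤ ‖(inner ℂ A (proj y A) : ℂ)‖) :
    ‖rat A B (proj x) - rat A B (proj y)‖ ≤ 8 * dist x y := by
  unfold rat
  set u : ℂ := inner ℂ B (proj x A)
  set u' : ℂ := inner ℂ B (proj y A)
  set v : ℂ := inner ℂ A (proj x A)
  set v' : ℂ := inner ℂ A (proj y A)
  have h1 : ‖u - u'‖ ≤ dist x y := norm_inner_proj_sub hA hB x y
  have h2 : ‖v - v'‖ ≤ dist x y := norm_inner_proj_sub hA hA x y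
  have h3 : ‖u'‖ ≤ 1 := norm_inner_proj_le hA hB y
  have h4 : ‖v'‖ ≤ 1 := norm_inner_proj_le hA hA y
  have hv : v ≠ 0 := by
    intro h; rw [h, norm_zero] at hx; linarith
  have hv' : v' ≠ 0 := by
    intro h; rw [h, norm_zero] at hy; linarith
  have e : u / v - u' / v' = ((u - u') * v' - u' * (v - v')) / (v * v') := by
    field_simp
    ring
  rw [e, norm_div, norm_mul]
  have h5 : ‖(u - u') * v' - u' * (v - v')‖ ≤ 2 * dist x y := by
    calc ‖(u - u') * v' - u' * (v - v')‖ ≤ ‖(u - u') * v'‖ + ‖u' * (v - v')‖ := norm_sub_le _ _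
      _ = ‖u - u'‖ * ‖v'‖ + ‖u'‖ * ‖v - v'‖ := by rw [norm_mul, norm_mul]
      _ ≤ dist x y * 1 + 1 * dist x y := by gcongr
      _ = 2 * dist x y := by ring
  have h6 : (1 / 4 : ℝ) ≤ ‖v‖ * ‖v'‖ := by nlinarith
  rw [div_le_iff₀ (by linarith)]
  have h7 : 0 ≤ dist x y := dist_nonneg
  nlinarith

/-- lines have positive two-dimensional Hausdorff measure, bounded below -/
lemma measure_line {L : Set CP3} (hL : IsLine L) : ENNReal.ofReal (1 / 4) ≤ 64 * μH[2] L := by
  obtain ⟨⟨A, B⟩, ⟨hA, hB, hAB⟩, rfl⟩ := hL.exists_ON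
  simp only at hA hB hAB
  have hON : (A, B) ∈ ONs := ⟨hA, hB, hAB⟩
  set S : Set CP3 := {x | x ∈ ln A B ∧ 1 / 2 ≤ ‖(inner ℂ A (proj x A) : ℂ)‖} with hS
  set τ : CP3 → (Fin 2 → ℝ) := fun x => ![(rat A B (proj x)).re, (rat A B (proj x)).im] with hτ
  have hLip : LipschitzOnWith 8 τ S := by
    apply LipschitzOnWith.of_dist_le_mul
    intro x hx y hy
    have h1 := rat_dist hA hB hx.2 hy.2
    rw [dist_pi_le_iff (by positivity)]
    intro i
    fin_cases i
    · show dist (rat A B (proj x)).re (rat A B (proj y)).re ≤ _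
      rw [Real.dist_eq, ← Complex.sub_re]
      exact (Complex.abs_re_le_norm _).trans h1
    · show dist (rat A B (proj x)).im (rat A B (proj y)).im ≤ _
      rw [Real.dist_eq, ← Complex.sub_im]
      exact (Complex.abs_im_le_norm _).trans h1
  have h2 := hLip.hausdorffMeasure_image_le (d := 2) (by norm_num)
  have h3 : Set.Icc (fun _ : Fin 2 => (0 : ℝ)) (fun _ => 1 / 2) ⊆ τ '' S := by
    intro y hy
    have hy0 := hy.1 0
    have hy1 := hy.1 1
    have hy2 := hy.2 0
    have hy3 := hy.2 1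
    simp only at hy0 hy1 hy2 hy3
    set t : ℂ := ⟨y 0, y 1⟩ with ht
    have htn : ‖t‖ ^ 2 ≤ 1 / 2 := by
      rw [← Complex.normSq_eq_norm_sq, Complex.normSq_apply]
      simp only [ht]
      nlinarith
    set z : E := A + t • B with hz
    have hBA : inner ℂ B A = (0 : ℂ) := by rw [← inner_conj_symm, hAB, map_zero]
    have hAA : inner ℂ A A = (1 : ℂ) := by
      rw [inner_self_eq_norm_sq_to_K, hA]; simp
    have hBB : inner ℂ B B = (1 : ℂ) := by
      rw [inner_self_eq_norm_sq_to_K, hB]; simp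
    have i1 : inner ℂ A z = (1 : ℂ) := by
      rw [hz, inner_add_right, inner_smul_right, hAB, hAA]; simp
    have i2 : inner ℂ B z = t := by
      rw [hz, inner_add_right, inner_smul_right, hBA, hBB]; simp
    have i3 : inner ℂ z A = (1 : ℂ) := by rw [← inner_conj_symm, i1, map_one]
    have hzn : ‖z‖ ^ 2 = 1 + ‖t‖ ^ 2 := by
      have h5 : inner ℂ z z = ((1 + ‖t‖ ^ 2 : ℝ) : ℂ) := by
        conv_lhs => rw [hz, inner_add_left, inner_smul_left, ← hz, i1, i2]
        rw [← Complex.normSq_eq_conj_mul_self, Complex.normSq_eq_norm_sq]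
        push_cast
        ring
      rw [@norm_sq_eq_re_inner ℂ, h5]
      exact Complex.ofReal_re _
    have hz0 : z ≠ 0 := by
      intro h0
      rw [h0, inner_zero_right] at i1
      exact one_ne_zero i1.symm
    refine ⟨pt z, ⟨?_, ?_⟩, ?_⟩
    · apply (pt_mem_iff hz0).2
      rw [Submodule.mem_span_pair]
      exact ⟨1, t, by rw [one_smul]⟩
    · rw [proj_pt_apply z A hz0, inner_smul_right, i1, i3, mul_one, norm_div, norm_one,
        Complex.norm_real, Real.norm_of_nonneg (by positivity), hzn]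
      rw [div_le_div_iff₀ (by norm_num) (by positivity)]
      linarith
    · have h6 := (rat_pt (e1 := A) (e2 := B) hz0 (by rw [i1]; exact one_ne_zero)).1
      rw [i1, i2, div_one] at h6
      ext i
      fin_cases i
      · show (rat A B (proj (pt z))).re = y 0
        rw [h6]
      · show (rat A B (proj (pt z))).im = y 1
        rw [h6]
  have h4 : (volume (Set.Icc (fun _ : Fin 2 => (0 : ℝ)) (fun _ => 1 / 2)) : ℝ≥0∞) =
      ENNReal.ofReal (1 / 4) := by
    rw [Real.volume_Icc_pi]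
    simp only [sub_zero, Finset.prod_const, Finset.card_univ, Fintype.card_fin]
    rw [← ENNReal.ofReal_pow (by norm_num)]
    norm_num
  have h5 : (μH[2] : Measure (Fin 2 → ℝ)) = volume := by
    have := hausdorffMeasure_pi_real (ι := Fin 2)
    simpa using this
  calc ENNReal.ofReal (1 / 4) = μH[2] (Set.Icc (fun _ : Fin 2 => (0 : ℝ)) (fun _ => 1 / 2)) := by
        rw [h5, h4]
    _ ≤ μH[2] (τ '' S) := measure_mono h3
    _ ≤ ((8 : ℝ≥0) : ℝ≥0∞) ^ (2 : ℝ) * μH[2] S := h2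
    _ = 64 * μH[2] S := by
        congr 1
        rw [show (2 : ℝ) = ((2 : ℕ) : ℝ) by norm_num, ENNReal.rpow_natCast]
        norm_num
    _ ≤ 64 * μH[2] (ln A B) := by
        gcongr
        exact fun x hx => hx.1

lemma subsingleton_inter {L L' : Set CP3} (hL : IsLine L) (hL' : IsLine L') (hne : L ≠ L') :
    (L ∩ L').Subsingleton := by
  rintro x ⟨hx, hx'⟩ y ⟨hy, hy'⟩
  by_contra hxy
  apply hne
  obtain ⟨v, hv, rfl⟩ := exists_pt x
  obtain ⟨w, hw, rfl⟩ := exists_pt y
  have hind : Ind v w := by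
    intro s t hst h0
    apply hxy
    by_cases hs : s = 0
    · subst hs
      have ht : t ≠ 0 := by tauto
      rw [zero_smul, zero_add] at h0
      exact absurd h0 (smul_ne_zero ht hw)
    · have h1 : v = (-(s⁻¹ * t)) • w := by
        have h2 : s • v = -(t • w) := eq_neg_of_add_eq_zero_left h0
        have h3 : v = s⁻¹ • s • v := by rw [smul_smul, inv_mul_cancel₀ hs, one_smul]
        rw [h3, h2, smul_neg, smul_smul, neg_smul]
      exact (pt_eq_iff hv hw).2 ⟨_, h1.symm⟩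
  have h1 : ∀ M : Set CP3, IsLine M → pt v ∈ M → pt w ∈ M → ln v w = M := by
    rintro M hM h1 h2
    apply isLine_eq_of_subset hind.isLine hM
    obtain ⟨W, hW, rfl⟩ := hM
    intro z hz
    have h3 : Submodule.span ℂ {v, w} ≤ W := by
      rw [Submodule.span_le]
      rintro u (rfl | rfl)
      · exact (pt_mem_iff hv).1 h1
      · exact (pt_mem_iff hw).1 h2
    exact le_trans hz h3
  rw [← h1 L hL hx hy, ← h1 L' hL' hx' hy']

lemma finite_lines (hm : μH[2] Dᶜ < ⊤) : (LL D).Finite := by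
  by_contra hinf
  have hinf' : (LL D).Infinite := hinf
  have hna : NullSingletonClass (μH[2] : Measure CP3) :=
    Measure.nullSingletonClass_hausdorff CP3 (by norm_num)
  have key : ∀ n : ℕ, (n : ℝ≥0∞) * ENNReal.ofReal (1 / 4) ≤ 64 * μH[2] Dᶜ := by
    intro n
    obtain ⟨s, hs, hcard⟩ := hinf'.exists_subset_card_eq n
    have h1 : μH[2] (⋃ L ∈ s, L) = ∑ L ∈ s, μH[2] L := by
      apply measure_biUnion_finset₀
      · intro L hL L' hL' hne
        have h2 := subsingleton_inter (hs hL).1 (hs hL').1 hne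
        exact h2.measure_zero _
      · intro L hL
        exact (hs hL).1.isClosed.measurableSet.nullMeasurableSet
    have h2 : (⋃ L ∈ s, L) ⊆ Dᶜ := iUnion₂_subset fun L hL => (hs hL).2
    calc (n : ℝ≥0∞) * ENNReal.ofReal (1 / 4) = ∑ L ∈ s, ENNReal.ofReal (1 / 4) := by
          rw [Finset.sum_const, hcard, nsmul_eq_mul]
      _ ≤ ∑ L ∈ s, 64 * μH[2] L := Finset.sum_le_sum fun L hL => measure_line (hs hL).1
      _ = 64 * μH[2] (⋃ L ∈ s, L) := by rw [h1, Finset.mul_sum]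
      _ ≤ 64 * μH[2] Dᶜ := by gcongr
  have hfin : 64 * μH[2] Dᶜ ≠ ⊤ := ENNReal.mul_ne_top (by norm_num) hm.ne
  obtain ⟨n, hn⟩ := ENNReal.exists_nat_mul_gt (a := ENNReal.ofReal (1 / 4))
    (by simp) hfin
  exact absurd (key n) (not_le.2 hn)

end Pool.Agent.Helper417.Kl
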