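import Pool.Agent.Helper417.Kl.FinLines

set_option autoImplicit false

namespace Pool.Agent.Helper417.Kl

open Filter Topology Metric Set MeasureTheory Projectivization
open scoped ENNReal NNReal

variable {D : Set CP3}

open Classical in
/-- from the group of self-maps of `D` to permutations of `ℂℙ³` -/
lemma exists_dat (hD : IsOpen D) (hDn : D.Nonempty) (hcov : CoversCompactThreefold D) :
    ∃ Γ : Subgroup (Equiv.Perm CP3), Dat D Γ := by
  obtain ⟨Γ0, hol, hfree, hpd, hcomp, ht2⟩ := hcov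
  set ι : Equiv.Perm D →* Equiv.Perm CP3 := Equiv.Perm.ofSubtype with hι
  have hιa : ∀ (γ : Equiv.Perm D) (x : CP3) (hx : x ∈ D), ι γ x = (γ ⟨x, hx⟩ : D) := fun γ x hx =>
    Equiv.Perm.ofSubtype_apply_of_mem γ hx
  have hholo : ∀ γ ∈ Γ0, HoloOn D (ι γ) := by
    intro γ hγ z hz
    obtain ⟨U, hU, hzU, G, hG, hG2⟩ := hol γ hγ z hz
    refine ⟨U, G, hzU, hU, hG, ?_, ?_, ?_⟩
    · intro y hy
      obtain ⟨h1, h2, h3, h4⟩ := hG2 y hy
      exact ⟨h1, h2⟩
    · intro y hy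
      obtain ⟨h1, h2, h3, h4⟩ := hG2 y hy
      exact h3
    · intro y hy
      obtain ⟨h1, h2, h3, h4⟩ := hG2 y hy
      rw [pt_of_ne h1, pt_of_ne h3, ← h4]
      exact hιa γ _ h2
  have hcont : ∀ γ ∈ Γ0, Continuous (fun x : D => γ x) := by
    intro γ hγ
    rw [continuous_induced_rng, continuous_iff_continuousAt]
    intro x
    have h1 : ContinuousAt (fun y : D => ι γ (y : CP3)) x :=
      ContinuousAt.comp (f := fun y : D => (y : CP3)) ((hholo γ hγ).continuousAt x.2)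
        continuous_subtype_val.continuousAt
    have h2 : (fun y : D => ι γ (y : CP3)) = Subtype.val ∘ fun y : D => γ y := by
      ext1 y
      exact hιa γ y y.2
    rw [h2] at h1
    exact h1
  refine ⟨Γ0.map ι, hD, hDn, ?_, ?_, ?_, ?_⟩
  · rintro _ ⟨γ, hγ, rfl⟩ x hx
    rw [hιa γ x hx]
    exact (γ ⟨x, hx⟩).2
  · rintro _ ⟨γ, hγ, rfl⟩
    exact hholo γ hγ
  · intro K hK hKD
    set K' : Set D := Subtype.val ⁻¹' K with hK'
    have hK'c : IsCompact K' := by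
      apply (IsInducing.subtypeVal.isCompact_preimage_iff _).2 hK
      rwa [Subtype.range_coe]
    apply ((hpd K' hK'c).image ι).subset
    rintro _ ⟨⟨γ, hγ, rfl⟩, y, ⟨x, hx, rfl⟩, hy⟩
    refine ⟨γ, ⟨hγ, γ ⟨x, hKD hx⟩, ⟨⟨x, hKD hx⟩, hx, rfl⟩, ?_⟩, rfl⟩
    show ((γ ⟨x, hKD hx⟩ : D) : CP3) ∈ K
    rw [← hιa]
    exact hy
  · have : LocallyCompactSpace D := hD.locallyCompactSpace
    have : ContinuousConstSMul Γ0 D := ⟨fun γ => hcont γ.1 γ.2⟩
    have h1 : ∀ x : D, ∃ C : Set D, IsCompact C ∧ C ∈ 𝓝 x := fun x => exists_compact_mem_nhds x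
    choose C hC hCx using h1
    set q : D → Quotient (MulAction.orbitRel Γ0 D) := Quotient.mk _ with hq
    have hqo : IsOpenMap q := isOpenMap_quotient_mk'_mul
    have hqs : ∀ y, ∃ x, q x = y := Quotient.exists_rep
    obtain ⟨t, ht⟩ := isCompact_univ.elim_finite_subcover (fun x : D => q '' interior (C x))
      (fun x => hqo _ isOpen_interior) (by
        intro y _
        obtain ⟨x, rfl⟩ := hqs y
        exact mem_iUnion.2 ⟨x, x, mem_interior_iff_mem_nhds.2 (hCx x), rfl⟩)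
    refine ⟨Subtype.val '' (⋃ x ∈ t, C x), ?_, ?_, ?_⟩
    · exact (t.isCompact_biUnion fun x _ => hC x).image continuous_subtype_val
    · rintro _ ⟨x, _, rfl⟩
      exact x.2
    · intro y hy
      obtain ⟨x, hx, c, hc, hcy⟩ := mem_iUnion₂.1 (ht (mem_univ (q ⟨y, hy⟩)))
      have h2 : (MulAction.orbitRel Γ0 D) c ⟨y, hy⟩ := Quotient.exact hcy
      rw [MulAction.orbitRel_apply] at h2
      obtain ⟨γ, hγ⟩ := h2
      refine ⟨ι (γ.1)⁻¹, ⟨_, Γ0.inv_mem γ.2, rfl⟩, c, ⟨c, mem_iUnion₂.2 ⟨x, hx,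
        interior_subset hc⟩, rfl⟩, ?_⟩
      rw [hιa _ _ c.2]
      have h3 : γ.1 ⟨y, hy⟩ = c := hγ
      have h4 : (⟨(c : CP3), c.2⟩ : D) = c := rfl
      rw [h4, ← h3]
      simp

lemma line_eq_of_nhds {L L' : Set CP3} (hL : IsLine L) (hL' : IsLine L') {p : CP3} (hp : p ∈ L)
    {N : Set CP3} (hN : N ∈ 𝓝 p) (h : N ∩ L ⊆ L') : L = L' := by
  apply isLine_eq_of_subset hL hL'
  obtain ⟨W, hW, rfl⟩ := hL
  obtain ⟨W', hW', rfl⟩ := hL'
  obtain ⟨v, hv, rfl⟩ := exists_pt p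
  have hvW : v ∈ W := (pt_mem_iff hv).1 hp
  have hvW' : v ∈ W' := (pt_mem_iff hv).1 (h ⟨mem_of_mem_nhds hN, hp⟩)
  intro x hx
  have hx' : x.submodule ≤ W := hx
  show x.submodule ≤ W'
  refine le_trans hx' ?_
  intro u hu
  have h1 : Tendsto (fun η : ℂ => v + η • u) (𝓝 0) (𝓝 v) := by
    have : Continuous fun η : ℂ => v + η • u := by fun_prop
    have h2 := this.tendsto 0
    simpa using h2
  have h2 : ∀ᶠ η : ℂ in 𝓝 0, v + η • u ≠ 0 := h1.eventually_ne hv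
  have h3 : ∀ᶠ η : ℂ in 𝓝 0, pt (v + η • u) ∈ N :=
    ((continuousAt_pt hv).tendsto.comp h1).eventually_mem hN
  have h4 : ∀ᶠ η : ℂ in 𝓝[≠] 0, v + η • u ≠ 0 ∧ pt (v + η • u) ∈ N :=
    (h2.and h3).filter_mono nhdsWithin_le_nhds
  obtain ⟨η, ⟨h5, h6⟩, h7⟩ := (h4.and self_mem_nhdsWithin).exists
  have h8 : v + η • u ∈ W' := by
    apply (pt_mem_iff h5).1
    exact h ⟨h6, (pt_mem_iff h5).2 (W.add_mem hvW (W.smul_mem η hu))⟩
  have h9 : η • u ∈ W' := by
    have := W'.sub_mem h8 hvW'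
    rwa [add_sub_cancel_left] at this
  exact (W'.smul_mem_iff h7).1 h9

lemma IsLine.isPreconnected {L : Set CP3} (hL : IsLine L) : IsPreconnected L := by
  obtain ⟨p, hp, rfl⟩ := hL.exists_ON
  have hi := ONs.ind hp
  have h1 : IsPreconnected ({0}ᶜ : Set (ℂ × ℂ)) :=
    (isConnected_compl_singleton_of_one_lt_rank (by
      rw [← Module.finrank_eq_rank, Module.finrank_prod, Complex.finrank_real_complex]
      norm_num) (0 : ℂ × ℂ)).isPreconnected
  have hne : ∀ y : ℂ × ℂ, y ≠ 0 → y.1 ≠ 0 ∨ y.2 ≠ 0 := by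
    intro y hy
    by_contra hcon
    push Not at hcon
    exact hy (Prod.ext hcon.1 hcon.2)
  have h2 := h1.image (fun y : ℂ × ℂ => pt (y.1 • p.1 + y.2 • p.2)) (by
    intro y hy
    apply ContinuousAt.continuousWithinAt
    have h3 : Continuous fun y : ℂ × ℂ => y.1 • p.1 + y.2 • p.2 := by fun_prop
    exact ContinuousAt.comp (f := fun y : ℂ × ℂ => y.1 • p.1 + y.2 • p.2) (g := pt)
      (continuousAt_pt (hi _ _ (hne y hy))) h3.continuousAt)
  convert h2 using 1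
  ext x
  constructor
  · intro hx
    obtain ⟨s, t, hst, rfl⟩ := (mem_ln hi).1 hx
    refine ⟨(s, t), ?_, rfl⟩
    intro h0
    have h3 := congrArg Prod.fst h0
    have h4 := congrArg Prod.snd h0
    simp only [Prod.fst_zero, Prod.snd_zero] at h3 h4
    rcases hst with h | h
    · exact h h3
    · exact h h4
  · rintro ⟨y, hy, rfl⟩
    exact (mem_ln hi).2 ⟨_, _, hne y hy, rfl⟩

/-- the main theorem -/
theorem main (hD : IsOpen D) (hDc : IsConnected D) (hcov : CoversCompactThreefold D)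
    (hm : μH[2] Dᶜ < ⊤) :
    (∃ 𝓛 : Set (Set CP3), 𝓛.Finite ∧ (∀ L ∈ 𝓛, IsLine L) ∧
      (∀ L ∈ 𝓛, ∀ L' ∈ 𝓛, L ≠ L' → Disjoint L L') ∧ Dᶜ = ⋃₀ 𝓛) ∧
    ∀ p ∈ Dᶜ, IsLine (connectedComponentIn Dᶜ p) := by
  obtain ⟨Γ, hΓ⟩ := exists_dat hD hDc.nonempty hcov
  have hfin := finite_lines hm
  obtain ⟨K, O, hf⟩ := hΓ.exists_fam (through_of_thin hm)
  obtain ⟨T, hT⟩ := exists_lab hfin
  have hsub := hΓ.compl_subset hf (dense_of_thin hm)
  have hU : Dᶜ = ⋃₀ LL D := by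
    apply Subset.antisymm hsub
    exact sUnion_subset fun L hL => hL.2
  have hdisj : ∀ L ∈ LL D, ∀ L' ∈ LL D, L ≠ L' → Disjoint L L' := by
    intro L hL L' hL' hne
    rw [Set.disjoint_left]
    intro p hp hp'
    apply hne
    have hUc := isPreconnected_UU hfin hsub ⟨L, hL⟩
    obtain ⟨L0, hL0, N, hN, hNL⟩ := hΓ.at_point hf hT hUc hfin hsub (hL.2 hp)
    have e1 := line_eq_of_nhds hL.1 hL0.1 hp hN fun x hx => hNL ⟨hx.1, hL.2 hx.2⟩
    have e2 := line_eq_of_nhds hL'.1 hL0.1 hp' hN fun x hx => hNL ⟨hx.1, hL'.2 hx.2⟩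
    rw [e1, e2]
  refine ⟨⟨LL D, hfin, fun L hL => hL.1, hdisj, hU⟩, ?_⟩
  intro p hp
  obtain ⟨L, hL, hpL⟩ := hsub hp
  have h1 : connectedComponentIn Dᶜ p = L := by
    apply Subset.antisymm
    · have hpc : IsPreconnected (connectedComponentIn Dᶜ p) := isPreconnected_connectedComponentIn
      have hRc : IsClosed (⋃ L' ∈ LL D \ {L}, L') :=
        (hfin.subset sdiff_subset).isClosed_biUnion fun L' hL' => hL'.1.1.isClosed
      rcases isPreconnected_iff_subset_of_disjoint_closed.1 hpc L (⋃ L' ∈ LL D \ {L}, L')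
        hL.1.isClosed hRc (by
          intro x hx
          obtain ⟨L', hL', hxL'⟩ := hsub (connectedComponentIn_subset _ _ hx)
          by_cases h2 : L' = L
          · left; rwa [← h2]
          · right; exact mem_iUnion₂.2 ⟨L', ⟨hL', h2⟩, hxL'⟩) (by
          rw [eq_empty_iff_forall_notMem]
          rintro x ⟨_, hx1, hx2⟩
          obtain ⟨L', ⟨hL', hne⟩, hxL'⟩ := mem_iUnion₂.1 hx2
          exact Set.disjoint_left.1 (hdisj L' hL' L hL hne) hxL' hx1) with h3 | h3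
      · exact h3
      · exfalso
        obtain ⟨L', ⟨hL', hne⟩, hxL'⟩ := mem_iUnion₂.1 (h3 (mem_connectedComponentIn hp))
        exact Set.disjoint_left.1 (hdisj L' hL' L hL hne) hxL' hpL
    · exact hL.1.isPreconnected.subset_connectedComponentIn hpL hL.2
  rw [h1]
  exact hL.1

end Pool.Agent.Helper417.Kl
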