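import Pool.Agent.Helper417.Kl.Dyn

set_option autoImplicit false

namespace Pool.Agent.Helper417.Kl

open Filter Topology Metric Set

/-- the lines in the complement of `D` -/
def LL (D : Set CP3) : Set (Set CP3) := {L | IsLine L ∧ L ⊆ Dᶜ}

/-- neighbourhoods of the lines in the complement, distinguishing lines -/
structure Lab (D : Set CP3) (T : Set CP3 → Set CP3) : Prop where
  isOpen : ∀ L, IsOpen (T L)
  sub : ∀ L, L ⊆ T L
  uniq : ∀ L ∈ LL D, ∀ L' ∈ LL D, ∀ M, IsLine M → M ⊆ T L → M ⊆ T L' → L = L'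

variable {D : Set CP3} {Γ : Subgroup (Equiv.Perm CP3)} {T : Set CP3 → Set CP3}

lemma limit_in_line {L : Set CP3} (hL : IsClosed L) {ε : ℕ → ℝ} (hε : Tendsto ε atTop (𝓝 0))
    {q : ℕ → E × E} {q0 : E × E} (hq0 : Ind q0.1 q0.2) (hq : Tendsto q atTop (𝓝 q0))
    (h : ∀ n, ln (q n).1 (q n).2 ⊆ thickening (ε n) L) : ln q0.1 q0.2 ⊆ L := by
  intro y hy
  rw [← hL.closure_eq, Metric.mem_closure_iff]
  intro δ hδ
  have h1 : ∀ᶠ n in atTop, (ln (q n).1 (q n).2 ∩ ball y (δ / 2)).Nonempty :=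
    eventually_ln_inter hq0 hq isOpen_ball ⟨y, hy, mem_ball_self (by linarith)⟩
  have h2 : ∀ᶠ n in atTop, ε n < δ / 2 := hε.eventually_lt_const (by linarith)
  obtain ⟨n, ⟨x, hx1, hx2⟩, hn⟩ := (h1.and h2).exists
  obtain ⟨z, hz, hxz⟩ := mem_thickening_iff.1 (h n hx1)
  refine ⟨z, hz, ?_⟩
  rw [mem_ball, dist_comm] at hx2
  calc dist y z ≤ dist y x + dist x z := dist_triangle _ _ _
    _ < δ := by linarith

lemma exists_lab (hfin : (LL D).Finite) : ∃ T, Lab D T := by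
  have key : ∀ L ∈ LL D, ∀ L' ∈ LL D, ∀ᶠ ε : ℝ in 𝓝[>] 0,
      ∀ M, IsLine M → M ⊆ thickening ε L → M ⊆ thickening ε L' → L = L' := by
    intro L hL L' hL'
    by_contra hcon
    rw [not_eventually] at hcon
    obtain ⟨ε, hε, hε2⟩ := exists_seq_forall_of_frequently hcon
    have h1 : ∀ n, ∃ p ∈ ONs, ln p.1 p.2 ⊆ thickening (ε n) L ∧ ln p.1 p.2 ⊆ thickening (ε n) L' ∧
        L ≠ L' := by
      intro n
      have := hε2 n
      push Not at this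
      obtain ⟨M, hM, h2, h3, h4⟩ := this
      obtain ⟨p, hp, rfl⟩ := hM.exists_ON
      exact ⟨p, hp, h2, h3, h4⟩
    choose p hp h2 h3 h4 using h1
    obtain ⟨p0, hp0, φ, hφ, hlim⟩ := isCompact_ONs.tendsto_subseq hp
    have hε0 : Tendsto (ε ∘ φ) atTop (𝓝 0) :=
      (hε.mono_right nhdsWithin_le_nhds).comp hφ.tendsto_atTop
    have e1 := limit_in_line hL.1.isClosed hε0 (ONs.ind hp0) hlim fun n => h2 _
    have e2 := limit_in_line hL'.1.isClosed hε0 (ONs.ind hp0) hlim fun n => h3 _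
    have e3 := isLine_eq_of_subset (ONs.ind hp0).isLine hL.1 e1
    have e4 := isLine_eq_of_subset (ONs.ind hp0).isLine hL'.1 e2
    exact h4 0 (e3.symm.trans e4)
  have h1 : ∀ᶠ ε : ℝ in 𝓝[>] 0, ∀ L ∈ LL D, ∀ L' ∈ LL D,
      ∀ M, IsLine M → M ⊆ thickening ε L → M ⊆ thickening ε L' → L = L' := by
    rw [eventually_all_finite hfin]
    intro L hL
    rw [eventually_all_finite hfin]
    exact key L hL
  obtain ⟨ε, hε, hε0⟩ := (h1.and self_mem_nhdsWithin).exists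
  exact ⟨thickening ε, fun L => isOpen_thickening, fun L => self_subset_thickening hε0 L, hε⟩

lemma Dat.cover (h : Dat D Γ) (hT : Lab D T) {g : ℕ → Equiv.Perm CP3} (hg : ∀ n, g n ∈ Γ)
    (hgc : Tendsto g atTop cofinite) {p : E × E} (hp : p ∈ UU D) :
    ∀ᶠ z : ℕ × (E × E) in atTop ×ˢ 𝓝 p, ∃ L ∈ LL D, g z.1 '' ln z.2.1 z.2.2 ⊆ T L := by
  by_contra hcon
  rw [not_eventually] at hcon
  have h0 : ∀ᶠ z : ℕ × (E × E) in atTop ×ˢ 𝓝 p, z.2 ∈ UU D :=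
    tendsto_snd.eventually ((isOpen_UU h.isOpen).mem_nhds hp)
  obtain ⟨z, hz, hz2⟩ := exists_seq_forall_of_frequently (hcon.and_eventually h0)
  have hz3 : Tendsto (fun n => (z n).1) atTop atTop := tendsto_fst.comp hz
  have hz4 : Tendsto (fun n => (z n).2) atTop (𝓝 p) := tendsto_snd.comp hz
  obtain ⟨φ, hφ, q, q0, hq0, hq, hq2, hq3, hq4⟩ := h.limit_line (g := fun n => g (z n).1)
    (fun n => hg _) (hgc.comp hz3) hz4 hp (fun n => (hz2 n).2)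
  obtain ⟨n, hn⟩ := (eventually_ln_subset (ONs.ind hq0) hq3 (hT.isOpen _) (hT.sub _)).exists
  rw [← hq2] at hn
  exact (hz2 (φ n)).1 ⟨_, ⟨(ONs.ind hq0).isLine, hq4⟩, hn⟩

lemma Dat.cover_nhds (h : Dat D Γ) (hT : Lab D T) {g : ℕ → Equiv.Perm CP3} (hg : ∀ n, g n ∈ Γ)
    (hgc : Tendsto g atTop cofinite) {p : E × E} (hp : p ∈ UU D) :
    ∃ W ∈ 𝓝 p, ∃ n0 : ℕ, ∀ n ≥ n0, ∃ L ∈ LL D, ∀ r ∈ W, g n '' ln r.1 r.2 ⊆ T L := by
  have h1 := h.cover hT hg hgc hp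
  rw [eventually_prod_iff] at h1
  obtain ⟨pa, hpa, pb, hpb, h2⟩ := h1
  obtain ⟨n0, hn0⟩ := eventually_atTop.1 hpa
  obtain ⟨ρ, hρ, hρ2⟩ := Metric.eventually_nhds_iff_ball.1
    (hpb.and ((isOpen_UU h.isOpen).mem_nhds hp))
  refine ⟨ball p ρ, ball_mem_nhds p hρ, n0, fun n hn => ?_⟩
  have hpc : p ∈ ball p ρ := mem_ball_self hρ
  obtain ⟨L, hL, hLp⟩ := h2 (hn0 n hn) (hρ2 p hpc).1
  refine ⟨L, hL, ?_⟩
  set u : Set CP3 → Set (E × E) := fun L => {r | r ∈ UU D ∧ g n '' ln r.1 r.2 ⊆ T L} with hu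
  have huo : ∀ L, IsOpen (u L) := fun L =>
    isOpen_image_subset h.isOpen (h.holo _ (hg n)) (hT.isOpen L)
  have h3 : ball p ρ ⊆ u L := by
    let _ : NormedSpace ℝ (E × E) := NormedSpace.restrictScalars ℝ ℂ (E × E)
    apply IsPreconnected.subset_left_of_subset_union (huo L)
      (isOpen_biUnion (s := {L' | L' ∈ LL D ∧ L' ≠ L}) (f := u) fun L' _ => huo L')
    · rw [Set.disjoint_left]
      rintro r ⟨hr1, hr2⟩ hr3
      obtain ⟨L', ⟨hL', hne⟩, hr4⟩ := mem_iUnion₂.1 hr3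
      exact hne (hT.uniq L' hL' L hL _ (h.isLine_image (hg n) hr1) hr4.2 hr2)
    · intro r hr
      obtain ⟨L', hL', hr2⟩ := h2 (hn0 n hn) (hρ2 r hr).1
      by_cases hne : L' = L
      · left
        rw [hne] at hr2
        exact ⟨(hρ2 r hr).2, hr2⟩
      · right
        exact mem_iUnion₂.2 ⟨L', ⟨hL', hne⟩, (hρ2 r hr).2, hr2⟩
    · exact ⟨p, hpc, (hρ2 p hpc).2, hLp⟩
    · exact (convex_ball p ρ).isPreconnected
  exact fun r hr => (h3 hr).2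

/-- along a divergent sequence all lines in `D` are attracted by the same line -/
lemma Dat.label (h : Dat D Γ) (hT : Lab D T) (hUc : IsPreconnected (UU D)) (hUn : (UU D).Nonempty)
    {g : ℕ → Equiv.Perm CP3} (hg : ∀ n, g n ∈ Γ) (hgc : Tendsto g atTop cofinite) :
    ∃ ψ : ℕ → ℕ, StrictMono ψ ∧ ∃ L ∈ LL D, ∀ p ∈ UU D, ∃ W ∈ 𝓝 p, ∃ n0 : ℕ, ∀ n ≥ n0,
      ∀ r ∈ W, g (ψ n) '' ln r.1 r.2 ⊆ T L := by
  obtain ⟨p1, hp1⟩ := hUn
  obtain ⟨ψ, hψ, q, q0, hq0, hq, hq2, hq3, hq4⟩ := h.limit_line hg hgc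
    (tendsto_const_nhds (x := p1)) hp1 (fun _ => hp1)
  have hL0 : ln q0.1 q0.2 ∈ LL D := ⟨(ONs.ind hq0).isLine, hq4⟩
  refine ⟨ψ, hψ, ln q0.1 q0.2, hL0, ?_⟩
  set L0 := ln q0.1 q0.2 with hL0d
  have hgc' : Tendsto (g ∘ ψ) atTop cofinite := hgc.comp hψ.tendsto_atTop
  have hg' : ∀ n, (g ∘ ψ) n ∈ Γ := fun n => hg _
  set P : E × E → Prop := fun p => ∃ W ∈ 𝓝 p, ∃ n0 : ℕ, ∀ n ≥ n0,
      ∀ r ∈ W, g (ψ n) '' ln r.1 r.2 ⊆ T L0 with hP
  -- transfer of the label inside a good neighbourhood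
  have key : ∀ p ∈ UU D, (∃ r ∈ UU D, ∃ W ∈ 𝓝 p, r ∈ W ∧
      (∃ n0 : ℕ, ∀ n ≥ n0, ∃ L ∈ LL D, ∀ r ∈ W, g (ψ n) '' ln r.1 r.2 ⊆ T L) ∧
      ∃ n1 : ℕ, ∀ n ≥ n1, g (ψ n) '' ln r.1 r.2 ⊆ T L0) → P p := by
    rintro p hp ⟨r, hr, W, hW, hrW, ⟨n0, hn0⟩, n1, hn1⟩
    refine ⟨W, hW, max n0 n1, fun n hn => ?_⟩
    obtain ⟨L, hL, hL2⟩ := hn0 n (le_trans (le_max_left _ _) hn)
    have e1 := hL2 r hrW
    have e2 := hn1 n (le_trans (le_max_right _ _) hn)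
    have e3 : L = L0 := hT.uniq L hL L0 hL0 _ (h.isLine_image (hg _) hr) e1 e2
    rw [← e3]
    exact hL2
  have hP1 : P p1 := by
    obtain ⟨W, hW, n0, hn0⟩ := h.cover_nhds hT hg' hgc' hp1
    obtain ⟨n1, hn1⟩ := eventually_atTop.1
      (eventually_ln_subset (ONs.ind hq0) hq3 (hT.isOpen L0) (hT.sub L0))
    refine key p1 hp1 ⟨p1, hp1, W, hW, mem_of_mem_nhds hW, ⟨n0, hn0⟩, n1, fun n hn => ?_⟩
    rw [hq2 n]
    exact hn1 n hn
  have hsub : UU D ⊆ {p | p ∈ UU D ∧ P p} := by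
    apply IsPreconnected.subset_left_of_subset_union (v := {p | p ∈ UU D ∧ ¬ P p})
    · rw [isOpen_iff_mem_nhds]
      rintro p ⟨hp, W, hW, n0, hn0⟩
      filter_upwards [(isOpen_UU h.isOpen).mem_nhds hp, eventually_mem_nhds_iff.2 hW] with r h1 h2
      exact ⟨h1, W, h2, n0, hn0⟩
    · rw [isOpen_iff_mem_nhds]
      rintro p ⟨hp, hnP⟩
      obtain ⟨W, hW, n0, hn0⟩ := h.cover_nhds hT hg' hgc' hp
      filter_upwards [(isOpen_UU h.isOpen).mem_nhds hp, hW] with r h1 h2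
      refine ⟨h1, fun h3 => hnP ?_⟩
      obtain ⟨W', hW', n1, hn1⟩ := h3
      exact key p hp ⟨r, h1, W, hW, h2, ⟨n0, hn0⟩, n1, fun n hn => hn1 n hn r (mem_of_mem_nhds hW')⟩
    · rw [Set.disjoint_left]
      rintro p ⟨_, h1⟩ ⟨_, h2⟩
      exact h2 h1
    · intro p hp
      by_cases h1 : P p
      · exact Or.inl ⟨hp, h1⟩
      · exact Or.inr ⟨hp, h1⟩
    · exact ⟨p1, hp1, hp1, hP1⟩
    · exact hUc
  exact fun p hp => (hsub hp).2

end Pool.Agent.Helper417.Kl
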