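import Pool.Agent.Helper417.Kl.Dt
import Pool.Agent.Helper540.Holo

set_option autoImplicit false

namespace Pool.Agent.Helper417.Kl

open Filter Topology Metric Set

/-- `G` is a local expression of `F` in homogeneous coordinates on `U` -/
structure IsLift (D : Set CP3) (F : CP3 → CP3) (U : Set E) (G : E → E) : Prop where
  isOpen : IsOpen U
  diff : DifferentiableOn ℂ G U
  cone : ∀ y ∈ U, y ∈ cone D
  ne : ∀ y ∈ U, G y ≠ 0
  eq : ∀ y ∈ U, F (pt y) = pt (G y)

/-- `F` is holomorphic on `D` -/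
def HoloOn (D : Set CP3) (F : CP3 → CP3) : Prop :=
  ∀ z ∈ cone D, ∃ U G, z ∈ U ∧ IsLift D F U G

variable {D : Set CP3} {F F' : CP3 → CP3} {U U' : Set E} {G G' H : E → E}

lemma IsLift.differentiableAt (h : IsLift D F U G) {z : E} (hz : z ∈ U) :
    DifferentiableAt ℂ G z := h.diff.differentiableAt (h.isOpen.mem_nhds hz)

lemma IsLift.smul (h : IsLift D F U G) {c : ℂ} (hc : c ≠ 0) :
    IsLift D F ((fun y : E => c⁻¹ • y) ⁻¹' U) (fun y => G (c⁻¹ • y)) where
  isOpen := h.isOpen.preimage (by fun_prop)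
  diff := h.diff.comp (by fun_prop) (fun y hy => hy)
  cone := fun y hy => by
    have := smul_mem_cone hc (h.cone _ hy)
    rwa [smul_smul, mul_inv_cancel₀ hc, one_smul] at this
  ne := fun y hy => h.ne _ hy
  eq := fun y hy => by
    rw [← h.eq _ hy, pt_smul (inv_ne_zero hc)]

lemma mem_span_of_forall {w v : E} (hw : w ≠ 0) (h : ∀ ξ : E →L[ℂ] ℂ, ξ w = 0 → ξ v = 0) :
    ∃ ρ : ℂ, v = ρ • w := by
  set x := pt w
  have h1 := h (innerSL ℂ (v - proj x v)) (by
    rw [innerSL_apply_apply]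
    have h2 : v - x.submodule.starProjection v ∈ x.submoduleᗮ :=
      Submodule.sub_starProjection_mem_orthogonal v
    exact Submodule.inner_left_of_mem_orthogonal mem_submodule_pt h2)
  rw [innerSL_apply_apply] at h1
  have h3 : inner ℂ (v - proj x v) (proj x v) = 0 := by
    have h2 : v - x.submodule.starProjection v ∈ x.submoduleᗮ :=
      Submodule.sub_starProjection_mem_orthogonal v
    exact Submodule.inner_left_of_mem_orthogonal (proj_mem x v) h2
  have h4 : inner ℂ (v - proj x v) (v - proj x v) = (0 : ℂ) := by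
    rw [inner_sub_right, h1, h3, sub_zero]
  have h5 : v = proj x v := by
    rw [inner_self_eq_zero, sub_eq_zero] at h4
    exact h4
  have h6 : v ∈ x.submodule := by
    rw [h5]; exact proj_mem x v
  rw [submodule_pt hw, Submodule.mem_span_singleton] at h6
  obtain ⟨a, ha⟩ := h6
  exact ⟨a, ha.symm⟩

lemma exists_smul_of_pt_eq {z w : E} (hz : z ≠ 0) (hw : w ≠ 0) (h : pt z = pt w) :
    ∃ c : ℂ, c ≠ 0 ∧ z = c • w := by
  obtain ⟨c, hc⟩ := (pt_eq_iff hz hw).1 h
  refine ⟨c, ?_, hc.symm⟩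
  rintro rfl
  rw [zero_smul] at hc
  exact hz hc.symm

/-- Euler's relation for local lifts -/
lemma IsLift.euler (h : IsLift D F U G) {z : E} (hz : z ∈ U) :
    ∃ ρ : ℂ, fderiv ℂ G z z = ρ • G z := by
  have hz0 : z ≠ 0 := (mem_cone.1 (h.cone z hz)).1
  apply mem_span_of_forall (h.ne z hz)
  intro ξ hξ
  have hline : HasDerivAt (fun c : ℂ => c • z) z 1 := by
    simpa using (hasDerivAt_id (1 : ℂ)).smul_const z
  have hG : HasFDerivAt G (fderiv ℂ G z) ((1 : ℂ) • z) := by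
    rw [one_smul]; exact (h.differentiableAt hz).hasFDerivAt
  have h1 : HasDerivAt (fun c : ℂ => G (c • z)) (fderiv ℂ G z z) 1 := hG.comp_hasDerivAt 1 hline
  have h2 : HasDerivAt (fun c : ℂ => ξ (G (c • z))) (ξ (fderiv ℂ G z z)) 1 :=
    ξ.hasFDerivAt.comp_hasDerivAt 1 h1
  have h3 : (fun c : ℂ => ξ (G (c • z))) =ᶠ[𝓝 1] fun _ => 0 := by
    have h4 : ∀ᶠ c : ℂ in 𝓝 1, c • z ∈ U := by
      apply hline.continuousAt.eventually_mem
      rw [one_smul]
      exact h.isOpen.mem_nhds hz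
    have h5 : ∀ᶠ c : ℂ in 𝓝 1, c ≠ 0 := eventually_ne_nhds one_ne_zero
    filter_upwards [h4, h5] with c hc hc0
    have h6 : pt (G (c • z)) = pt (G z) := by
      rw [← h.eq _ hc, ← h.eq _ hz, pt_smul hc0]
    obtain ⟨k, hk, hk2⟩ := exists_smul_of_pt_eq (h.ne _ hc) (h.ne _ hz) h6
    rw [hk2, map_smul, hξ, smul_zero]
  have h7 : HasDerivAt (fun _ : ℂ => (0 : ℂ)) (ξ (fderiv ℂ G z z)) 1 :=
    h2.congr_of_eventuallyEq h3.symm
  exact h7.unique (hasDerivAt_const _ _)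

/-- local lifts of biholomorphic maps are nondegenerate -/
lemma IsLift.nondeg (h : IsLift D F U G) (h' : IsLift D F' U' H) (hF : ∀ x ∈ D, F' (F x) = x)
    {z v : E} (hz : z ∈ U) (hz' : G z ∈ U') {c : ℂ} (hv : fderiv ℂ G z v = c • G z) :
    ∃ ρ : ℂ, v = ρ • z := by
  have hz0 : z ≠ 0 := (mem_cone.1 (h.cone z hz)).1
  apply mem_span_of_forall hz0
  intro ξ hξ
  set l : E →L[ℂ] ℂ := innerSL ℂ z with hl
  have hlz : l z ≠ 0 := by
    rw [hl, innerSL_apply_apply]
    exact inner_self_ne_zero.2 hz0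
  have hpar : ∀ y ∈ U, G y ∈ U' → ∃ k : ℂ, k ≠ 0 ∧ H (G y) = k • y := by
    intro y hy hy'
    apply exists_smul_of_pt_eq (h'.ne _ hy') (mem_cone.1 (h.cone y hy)).1
    rw [← h'.eq _ hy', ← h.eq _ hy]
    exact hF _ (mem_cone.1 (h.cone y hy)).2
  obtain ⟨μ, hμ, hμ2⟩ := hpar z hz hz'
  obtain ⟨ρ, hρ⟩ := h'.euler hz'
  have hline : HasDerivAt (fun τ : ℂ => z + τ • v) v 0 := by
    simpa using ((hasDerivAt_id (0 : ℂ)).smul_const v).const_add z
  have hG : HasFDerivAt G (fderiv ℂ G z) (z + (0 : ℂ) • v) := by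
    rw [zero_smul, add_zero]; exact (h.differentiableAt hz).hasFDerivAt
  have h1 : HasDerivAt (fun τ : ℂ => G (z + τ • v)) (fderiv ℂ G z v) 0 :=
    hG.comp_hasDerivAt 0 hline
  have hH : HasFDerivAt H (fderiv ℂ H (G z)) (G (z + (0 : ℂ) • v)) := by
    rw [zero_smul, add_zero]; exact (h'.differentiableAt hz').hasFDerivAt
  have h2 : HasDerivAt (fun τ : ℂ => H (G (z + τ • v))) (fderiv ℂ H (G z) (fderiv ℂ G z v)) 0 :=
    hH.comp_hasDerivAt 0 h1
  have h3 : fderiv ℂ H (G z) (fderiv ℂ G z v) = (c * ρ * μ) • z := by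
    rw [hv, map_smul, hρ, hμ2, smul_smul, smul_smul, mul_assoc]
  rw [h3] at h2
  have h4 : HasDerivAt (fun τ : ℂ => ξ (H (G (z + τ • v)))) (ξ ((c * ρ * μ) • z)) 0 :=
    ξ.hasFDerivAt.comp_hasDerivAt 0 h2
  have h5 : HasDerivAt (fun τ : ℂ => l (H (G (z + τ • v)))) (l ((c * ρ * μ) • z)) 0 :=
    l.hasFDerivAt.comp_hasDerivAt 0 h2
  have h6 : HasDerivAt (fun τ : ℂ => ξ (z + τ • v)) (ξ v) 0 :=
    ξ.hasFDerivAt.comp_hasDerivAt 0 hline
  have h7 : HasDerivAt (fun τ : ℂ => l (z + τ • v)) (l v) 0 :=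
    l.hasFDerivAt.comp_hasDerivAt 0 hline
  have h8 := (h4.mul h7).sub (h5.mul h6)
  have h9 : ((fun τ : ℂ => ξ (H (G (z + τ • v)))) * (fun τ : ℂ => l (z + τ • v)) -
      (fun τ : ℂ => l (H (G (z + τ • v)))) * fun τ : ℂ => ξ (z + τ • v)) =ᶠ[𝓝 0]
      fun _ => (0 : ℂ) := by
    have e1 : ∀ᶠ τ : ℂ in 𝓝 0, z + τ • v ∈ U := by
      apply hline.continuousAt.eventually_mem
      rw [zero_smul, add_zero]
      exact h.isOpen.mem_nhds hz
    have e2 : ∀ᶠ τ : ℂ in 𝓝 0, G (z + τ • v) ∈ U' := by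
      apply h1.continuousAt.eventually_mem
      rw [zero_smul, add_zero]
      exact h'.isOpen.mem_nhds hz'
    filter_upwards [e1, e2] with τ hτ1 hτ2
    obtain ⟨k, -, hk⟩ := hpar _ hτ1 hτ2
    simp only [Pi.sub_apply, Pi.mul_apply, hk, map_smul, smul_eq_mul]
    ring
  have h10 : HasDerivAt (fun _ : ℂ => (0 : ℂ)) _ 0 := h8.congr_of_eventuallyEq h9.symm
  have h11 := h10.unique (hasDerivAt_const _ _)
  simp only [zero_smul, add_zero, hμ2, map_smul, hξ, mul_zero, zero_mul, zero_add,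
    zero_sub, neg_eq_zero, smul_eq_mul] at h11
  rcases mul_eq_zero.1 h11 with h12 | h12
  · exact absurd h12 (mul_ne_zero hμ hlz)
  · exact h12

/-- the Jacobian determinant of a local lift -/
noncomputable def J (G : E → E) (z b c d : E) : ℂ :=
  dt (G z) (fderiv ℂ G z b) (fderiv ℂ G z c) (fderiv ℂ G z d)

lemma IsLift.gauge (h : IsLift D F U G) (h' : IsLift D F U' G') {z : E} (hz : z ∈ U)
    (hz' : z ∈ U') : ∃ u : ℂ, u ≠ 0 ∧ G' z = u • G z ∧ ∀ b c d, J G' z b c d = u ^ 4 * J G z b c d := by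
  set l : E →L[ℂ] ℂ := innerSL ℂ (G z) with hl
  have hlz : l (G z) ≠ 0 := by
    rw [hl, innerSL_apply_apply]
    exact inner_self_ne_zero.2 (h.ne z hz)
  have hG := h.differentiableAt hz
  have hG' := h'.differentiableAt hz'
  set u : E → ℂ := fun y => l (G' y) / l (G y) with hu
  have hud : DifferentiableAt ℂ u z := by
    have e1 : DifferentiableAt ℂ (fun y => l (G' y)) z := l.differentiableAt.comp z hG'
    have e2 : DifferentiableAt ℂ (fun y => l (G y)) z := l.differentiableAt.comp z hG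
    have e3 : DifferentiableAt ℂ (fun y => (l (G y))⁻¹) z := e2.fun_inv hlz
    simp only [hu, div_eq_mul_inv]
    exact e1.fun_mul e3
  have hpar : ∀ y ∈ U, y ∈ U' → l (G y) ≠ 0 → G' y = u y • G y := by
    intro y hy hy' hl0
    obtain ⟨k, hk, hk2⟩ := exists_smul_of_pt_eq (h'.ne _ hy') (h.ne _ hy)
      (by rw [← h'.eq _ hy', ← h.eq _ hy])
    have : u y = k := by
      simp only [hu, hk2, map_smul, smul_eq_mul]
      field_simp
    rw [this, hk2]
  have hev : G' =ᶠ[𝓝 z] fun y => u y • G y := by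
    have e1 : ∀ᶠ y in 𝓝 z, l (G y) ≠ 0 :=
      (l.continuous.continuousAt.comp hG.continuousAt).eventually_ne hlz
    filter_upwards [h.isOpen.mem_nhds hz, h'.isOpen.mem_nhds hz', e1] with y h1 h2 h3
    exact hpar y h1 h2 h3
  have hz2 : G' z = u z • G z := hev.self_of_nhds
  have hd : ∀ v, fderiv ℂ G' z v = (fderiv ℂ u z v) • G z + u z • fderiv ℂ G z v := by
    intro v
    have h1 : HasFDerivAt (fun y => u y • G y) (u z • fderiv ℂ G z +
        (fderiv ℂ u z).smulRight (G z)) z := hud.hasFDerivAt.smul hG.hasFDerivAt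
    rw [hev.fderiv_eq, h1.fderiv]
    simp [add_comm]
  refine ⟨u z, ?_, hz2, ?_⟩
  · intro h0
    rw [h0, zero_smul] at hz2
    exact h'.ne z hz' hz2
  · intro b c d
    unfold J
    rw [hd, hd, hd, hz2, dt_gauge]

end Pool.Agent.Helper417.Kl
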