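import Pool.Agent.Helper417.Kl.Lift

set_option autoImplicit false

namespace Pool.Agent.Helper417.Kl

open Filter Topology Metric Set

variable {D : Set CP3} {F F' : CP3 → CP3} {U U' : Set E} {G G' H : E → E}

lemma exists_complement {a b : E} (h : ∀ s t : ℂ, s • a + t • b = 0 → s = 0 ∧ t = 0) :
    ∃ c d : E, ∀ x0 x1 x2 x3 : ℂ, x0 • a + x1 • b + x2 • c + x3 • d = 0 →
      x0 = 0 ∧ x1 = 0 ∧ x2 = 0 ∧ x3 = 0 := by
  have h1 : LinearIndependent ℂ ![a, b] := by
    rw [Fintype.linearIndependent_iff]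
    intro g hg
    simp only [Fin.sum_univ_two, Matrix.cons_val_zero, Matrix.cons_val_one] at hg
    obtain ⟨h2, h3⟩ := h _ _ hg
    intro i
    fin_cases i <;> simpa
  obtain ⟨c, hc⟩ := exists_linearIndependent_cons_of_lt_finrank (R := ℂ) (M := E) h1 (by simp)
  obtain ⟨d, hd⟩ := exists_linearIndependent_cons_of_lt_finrank (R := ℂ) (M := E) hc (by simp)
  refine ⟨c, d, fun x0 x1 x2 x3 hx => ?_⟩
  rw [Fintype.linearIndependent_iff] at hd
  have h4 := hd ![x3, x2, x0, x1] (by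
    rw [Fin.sum_univ_four]
    show x3 • d + x2 • c + x0 • a + x1 • b = 0
    rw [← hx]
    abel)
  exact ⟨h4 2, h4 3, h4 1, h4 0⟩

lemma IsLift.J_ne_zero (h : IsLift D F U G) (hF' : HoloOn D F') (hFD : ∀ x ∈ D, F x ∈ D)
    (hinv : ∀ x ∈ D, F' (F x) = x) {z p q r : E} (hz : z ∈ U)
    (hind : ∀ x0 x1 x2 x3 : ℂ, x0 • z + x1 • p + x2 • q + x3 • r = 0 →
      x0 = 0 ∧ x1 = 0 ∧ x2 = 0 ∧ x3 = 0) : J G z p q r ≠ 0 := by
  have hzc := mem_cone.1 (h.cone z hz)
  have hGz : G z ∈ Kl.cone D := mem_cone.2 ⟨h.ne z hz, by rw [← h.eq z hz]; exact hFD _ hzc.2⟩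
  obtain ⟨U', H, hU', hH⟩ := hF' _ hGz
  apply dt_ne_zero
  intro x0 x1 x2 x3 hx
  have h1 : fderiv ℂ G z (x1 • p + x2 • q + x3 • r) = (-x0) • G z := by
    simp only [map_add, map_smul]
    rw [neg_smul, eq_neg_iff_add_eq_zero, ← hx]
    abel
  obtain ⟨ρ, hρ⟩ := h.nondeg hH hinv hz hU' h1
  obtain ⟨h2, h3, h4, h5⟩ := hind (-ρ) x1 x2 x3 (by
    rw [neg_smul, ← hρ]; abel)
  subst h3 h4 h5
  simp only [zero_smul, add_zero] at hx
  exact ⟨(smul_eq_zero.1 hx).resolve_right (h.ne z hz), rfl, rfl, rfl⟩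

lemma tendsto_inv_cocompact : Tendsto (fun t : ℂ => t⁻¹) (cocompact ℂ) (𝓝 0) := by
  rw [← Metric.cobounded_eq_cocompact]
  exact Filter.tendsto_inv₀_cobounded

lemma eventually_ne_cocompact (z : ℂ) : ∀ᶠ t : ℂ in cocompact ℂ, t ≠ z := by
  rw [Filter.eventually_iff]
  exact (isCompact_singleton (x := z)).compl_mem_cocompact

lemma entire_exists_zero {m : ℂ → ℂ} (hm : Differentiable ℂ m) {κ : ℂ} (hκ : κ ≠ 0)
    (hlim : Tendsto (fun t => m t / t ^ 4) (cocompact ℂ) (𝓝 κ)) : ∃ z0, m z0 = 0 := by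
  by_contra hcon
  push Not at hcon
  have h1 : Differentiable ℂ (fun t => (m t)⁻¹) := fun t => (hm t).fun_inv (hcon t)
  have h2 : Tendsto (fun t : ℂ => (m t)⁻¹) (cocompact ℂ) (𝓝 0) := by
    have h3 : Tendsto (fun t : ℂ => (m t / t ^ 4)⁻¹ * (t⁻¹) ^ 4) (cocompact ℂ) (𝓝 (κ⁻¹ * 0 ^ 4)) :=
      (hlim.inv₀ hκ).mul (tendsto_inv_cocompact.pow 4)
    rw [zero_pow (by norm_num), mul_zero] at h3
    refine h3.congr' ?_
    filter_upwards [eventually_ne_cocompact 0] with t ht
    have := hcon t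
    field_simp
  have h4 := h1.apply_eq_of_tendsto_cocompact 0 h2
  exact inv_ne_zero (hcon 0) h4


/-- A biholomorphic self-map of `D` maps every line contained in `D` linearly onto a line. -/
theorem line_image (hF : HoloOn D F) (hF' : HoloOn D F') (hFD : ∀ x ∈ D, F x ∈ D)
    (hinv : ∀ x ∈ D, F' (F x) = x) {a b : E}
    (hab : ∀ s t : ℂ, (s ≠ 0 ∨ t ≠ 0) → s • a + t • b ∈ cone D) :
    ∃ A B : E, (∀ s t : ℂ, (s ≠ 0 ∨ t ≠ 0) → s • A + t • B ≠ 0) ∧
      ∀ s t : ℂ, (s ≠ 0 ∨ t ≠ 0) → F (pt (s • a + t • b)) = pt (s • A + t • B) := by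
  obtain ⟨c, d, hind⟩ := exists_complement (a := a) (b := b) (fun s t h => by
    by_contra hcon
    have h1 : s ≠ 0 ∨ t ≠ 0 := by tauto
    exact (mem_cone.1 (hab s t h1)).1 h)
  -- a lift at infinity
  have hbD : b ∈ cone D := by simpa using hab 0 1 (Or.inr one_ne_zero)
  obtain ⟨Ub, Gb, hbU, hGb⟩ := hF b hbD
  set l : E →L[ℂ] ℂ := innerSL ℂ (Gb b) with hl
  have hlb : l (Gb b) ≠ 0 := by
    rw [hl, innerSL_apply_apply]
    exact inner_self_ne_zero.2 (hGb.ne b hbU)
  -- the points of the line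
  set w : ℂ → E := fun t => a + t • b with hw
  have hwD : ∀ t, w t ∈ cone D := fun t => by
    simpa [hw] using hab 1 t (Or.inl one_ne_zero)
  have hwc : Continuous w := by simp only [hw]; fun_prop
  have hwd : Differentiable ℂ w := by simp only [hw]; fun_prop
  -- lifts along the line
  have hch : ∀ t : ℂ, ∃ U G, w t ∈ U ∧ IsLift D F U G := fun t => hF _ (hwD t)
  choose Uf Gf hUf hGf using hch
  have hJ : ∀ U G, IsLift D F U G → ∀ t, w t ∈ U → J G (w t) b c d ≠ 0 := by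
    intro U G h t ht
    apply h.J_ne_zero hF' hFD hinv ht
    intro x0 x1 x2 x3 hx
    have := hind x0 (x0 * t + x1) x2 x3 (by
      rw [← hx]
      simp only [hw, smul_add, smul_smul, add_smul]
      abel)
    obtain ⟨h1, h2, h3, h4⟩ := this
    subst h1
    simp only [zero_mul, zero_add] at h2
    exact ⟨rfl, h2, h3, h4⟩
  set m : ℂ → ℂ := fun t => (l (Gf t (w t))) ^ 4 / J (Gf t) (w t) b c d with hm
  have hmloc : ∀ U G, IsLift D F U G → ∀ t, w t ∈ U →
      m t = (l (G (w t))) ^ 4 / J G (w t) b c d := by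
    intro U G h t ht
    obtain ⟨u, hu, hu1, hu2⟩ := h.gauge (hGf t) ht (hUf t)
    have h1 := hJ U G h t ht
    simp only [hm]
    rw [hu1, hu2, map_smul, smul_eq_mul]
    field_simp
  have hJd : ∀ U G, IsLift D F U G → ∀ t, w t ∈ U →
      DifferentiableAt ℂ (fun τ => J G (w τ) b c d) t := by
    intro U G h t ht
    have h1 : ∀ v, DifferentiableAt ℂ (fun τ => fderiv ℂ G (w τ) v) t := fun v =>
      ((Helper540.differentiableOn_fderiv_apply h.isOpen h.diff v).differentiableAt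
        (h.isOpen.mem_nhds ht)).comp t (hwd t)
    have h2 : DifferentiableAt ℂ (fun τ => G (w τ)) t := (h.differentiableAt ht).comp t (hwd t)
    exact differentiable_dt h2 (h1 b) (h1 c) (h1 d)
  have hGd : ∀ U G, IsLift D F U G → ∀ t, w t ∈ U →
      DifferentiableAt ℂ (fun τ => l (G (w τ))) t := fun U G h t ht =>
    l.differentiableAt.comp t ((h.differentiableAt ht).comp t (hwd t))
  have hev : ∀ U G, IsLift D F U G → ∀ t, w t ∈ U → ∀ᶠ τ in 𝓝 t, w τ ∈ U := fun U G h t ht =>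
    hwc.continuousAt.eventually_mem (h.isOpen.mem_nhds ht)
  have hmd : Differentiable ℂ m := by
    intro t
    have h1 : m =ᶠ[𝓝 t] fun τ => (l (Gf t (w τ))) ^ 4 / J (Gf t) (w τ) b c d := by
      filter_upwards [hev _ _ (hGf t) t (hUf t)] with τ hτ
      exact hmloc _ _ (hGf t) τ hτ
    have h2 := (hGd _ _ (hGf t) t (hUf t)).fun_pow 4
    have h3 := h2.fun_div (hJd _ _ (hGf t) t (hUf t)) (hJ _ _ (hGf t) t (hUf t))
    exact h3.congr_of_eventuallyEq h1
  -- behaviour at infinity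
  set v : ℂ → E := fun s => b + s • a with hv
  have hvc : Continuous v := by simp only [hv]; fun_prop
  have hv0 : v 0 = b := by simp [hv]
  have hevb : ∀ᶠ s in 𝓝 (0 : ℂ), v s ∈ Ub := by
    apply hvc.continuousAt.eventually_mem
    rw [hv0]
    exact hGb.isOpen.mem_nhds hbU
  have hevt : ∀ᶠ t : ℂ in cocompact ℂ, v t⁻¹ ∈ Ub := tendsto_inv_cocompact.eventually hevb
  have hJb : J Gb b a c d ≠ 0 := by
    apply hGb.J_ne_zero hF' hFD hinv hbU
    intro x0 x1 x2 x3 hx
    obtain ⟨h1, h2, h3, h4⟩ := hind x1 x0 x2 x3 (by rw [← hx]; abel)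
    exact ⟨h2, h1, h3, h4⟩
  set κ : ℂ := - (l (Gb b)) ^ 4 / J Gb b a c d with hκ
  have hκ0 : κ ≠ 0 := div_ne_zero (neg_ne_zero.2 (pow_ne_zero 4 hlb)) hJb
  have hwv : ∀ t : ℂ, t ≠ 0 → w t = t • v t⁻¹ := by
    intro t ht
    simp only [hw, hv, smul_add, smul_smul, mul_inv_cancel₀ ht, one_smul]
    abel
  have hinf : ∀ t : ℂ, t ≠ 0 → v t⁻¹ ∈ Ub →
      m t / t ^ 4 = - (l (Gb (v t⁻¹))) ^ 4 / J Gb (v t⁻¹) a c d := by
    intro t ht hvt
    have hL := hGb.smul ht
    have hmem : w t ∈ (fun y : E => t⁻¹ • y) ⁻¹' Ub := by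
      simp only [mem_preimage]
      rw [hwv t ht, smul_smul, inv_mul_cancel₀ ht, one_smul]
      exact hvt
    have h1 := hmloc _ _ hL t hmem
    have he : t⁻¹ • w t = v t⁻¹ := by rw [hwv t ht, smul_smul, inv_mul_cancel₀ ht, one_smul]
    have hfd : ∀ x, fderiv ℂ (fun y => Gb (t⁻¹ • y)) (w t) x = t⁻¹ • fderiv ℂ Gb (v t⁻¹) x := by
      intro x
      have h2 : HasFDerivAt (fun y : E => t⁻¹ • y) (t⁻¹ • ContinuousLinearMap.id ℂ E) (w t) :=
        (ContinuousLinearMap.hasFDerivAt (t⁻¹ • ContinuousLinearMap.id ℂ E))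
      have h3 : HasFDerivAt Gb (fderiv ℂ Gb (v t⁻¹)) (t⁻¹ • w t) := by
        rw [he]; exact (hGb.differentiableAt hvt).hasFDerivAt
      have h4 := h3.comp (w t) h2
      have h5 : fderiv ℂ (fun y => Gb (t⁻¹ • y)) (w t) = _ := h4.fderiv
      rw [h5]
      simp
    obtain ⟨ρ, hρ⟩ := hGb.euler hvt
    have hb2 : fderiv ℂ Gb (v t⁻¹) b = ρ • Gb (v t⁻¹) - t⁻¹ • fderiv ℂ Gb (v t⁻¹) a := by
      have : b = v t⁻¹ - t⁻¹ • a := by simp [hv]
      conv_lhs => rw [this]
      rw [map_sub, map_smul, hρ]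
    have hJt : J (fun y => Gb (t⁻¹ • y)) (w t) b c d = - t⁻¹ ^ 4 * J Gb (v t⁻¹) a c d := by
      unfold J
      rw [hfd, hfd, hfd, hb2]
      show dt (Gb (t⁻¹ • w t)) _ _ _ = _
      rw [he, dt_inf]
      ring
    rw [h1, hJt, he]
    have h6 : J Gb (v t⁻¹) a c d ≠ 0 := by
      intro h7
      have := hJ _ _ hL t hmem
      rw [hJt, h7, mul_zero] at this
      exact this rfl
    field_simp
  have hGbc : ContinuousAt (fun s => Gb (v s)) 0 := by
    have h1 : ContinuousAt Gb (v 0) := by rw [hv0]; exact (hGb.differentiableAt hbU).continuousAt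
    exact h1.comp hvc.continuousAt
  have hlim : Tendsto (fun t => m t / t ^ 4) (cocompact ℂ) (𝓝 κ) := by
    have h1 : ∀ x, ContinuousAt (fun s => fderiv ℂ Gb (v s) x) 0 := by
      intro x
      have h2 : ContinuousAt (fun z => fderiv ℂ Gb z x) (v 0) := by
        rw [hv0]
        exact ((Helper540.differentiableOn_fderiv_apply hGb.isOpen hGb.diff x).differentiableAt
          (hGb.isOpen.mem_nhds hbU)).continuousAt
      exact h2.comp hvc.continuousAt
    have h3 : ContinuousAt (fun s => J Gb (v s) a c d) 0 := continuous_dt hGbc (h1 a) (h1 c) (h1 d)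
    have h4 : ContinuousAt (fun s => - (l (Gb (v s))) ^ 4 / J Gb (v s) a c d) 0 := by
      have h5 : ContinuousAt (fun s => l (Gb (v s))) 0 := l.continuous.continuousAt.comp hGbc
      apply (h5.pow 4).neg.div h3
      rw [hv0]
      exact hJb
    have h5 : Tendsto (fun s => - (l (Gb (v s))) ^ 4 / J Gb (v s) a c d) (𝓝 0) (𝓝 κ) := by
      have := h4.tendsto
      simpa only [hv0] using this
    refine (h5.comp tendsto_inv_cocompact).congr' ?_
    filter_upwards [hevt, eventually_ne_cocompact 0] with t ht ht0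
    exact (hinf t ht0 ht).symm
  -- the zero of `m`
  obtain ⟨z0, hz0⟩ := entire_exists_zero hmd hκ0 hlim
  set U0 := Uf z0
  set G0 := Gf z0
  have hU0 : w z0 ∈ U0 := hUf z0
  have hG0 : IsLift D F U0 G0 := hGf z0
  set f : ℂ → ℂ := fun t => l (G0 (w t)) with hf
  have hf0 : f z0 = 0 := by
    have h1 := hmloc _ _ hG0 z0 hU0
    rw [hz0] at h1
    have h2 := (div_eq_zero_iff.1 h1.symm).resolve_right (hJ _ _ hG0 z0 hU0)
    exact eq_zero_of_pow_eq_zero h2
  obtain ⟨r, hr, hball⟩ := Metric.eventually_nhds_iff_ball.1 (hev _ _ hG0 z0 hU0)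
  have hfd : DifferentiableOn ℂ f (ball z0 r) := fun t ht =>
    (hGd _ _ hG0 t (hball t ht)).differentiableWithinAt
  have hds : DifferentiableOn ℂ (dslope f z0) (ball z0 r) :=
    (Complex.differentiableOn_dslope (ball_mem_nhds z0 hr)).2 hfd
  have hfs : ∀ t, f t = (t - z0) * dslope f z0 t := by
    intro t
    have := sub_smul_dslope f z0 t
    rw [hf0, sub_zero, smul_eq_mul] at this
    exact this.symm
  -- the quotient
  set h : ℂ → ℂ := fun t => if t = z0 then (deriv f z0) ^ 4 / J G0 (w z0) b c d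
    else m t / (t - z0) ^ 4 with hh
  have hh_loc : ∀ t ∈ ball z0 r, h t = (dslope f z0 t) ^ 4 / J G0 (w t) b c d := by
    intro t ht
    simp only [hh]
    split_ifs with h1
    · rw [h1, dslope_same]
    · rw [hmloc _ _ hG0 t (hball t ht)]
      have h2 : l (G0 (w t)) = (t - z0) * dslope f z0 t := hfs t
      rw [h2]
      have h3 := hJ _ _ hG0 t (hball t ht)
      have h4 : t - z0 ≠ 0 := sub_ne_zero.2 h1
      field_simp
  have hhd : Differentiable ℂ h := by
    intro t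
    by_cases ht : t = z0
    · subst ht
      have h1 : h =ᶠ[𝓝 t] fun τ => (dslope f t τ) ^ 4 / J G0 (w τ) b c d := by
        filter_upwards [ball_mem_nhds t hr] with τ hτ
        exact hh_loc τ hτ
      have h2 := (hds.differentiableAt (ball_mem_nhds t hr)).fun_pow 4
      exact (h2.fun_div (hJd _ _ hG0 t hU0) (hJ _ _ hG0 t hU0)).congr_of_eventuallyEq h1
    · have h1 : h =ᶠ[𝓝 t] fun τ => m τ / (τ - z0) ^ 4 := by
        filter_upwards [eventually_ne_nhds ht] with τ hτ
        simp [hh, hτ]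
      have h2 : DifferentiableAt ℂ (fun τ : ℂ => (τ - z0) ^ 4) t := by fun_prop
      exact ((hmd t).fun_div h2 (pow_ne_zero 4 (sub_ne_zero.2 ht))).congr_of_eventuallyEq h1
  have hratio : Tendsto (fun t : ℂ => t⁻¹ * (t - z0)) (cocompact ℂ) (𝓝 1) := by
    have h1 : Tendsto (fun t : ℂ => 1 - t⁻¹ * z0) (cocompact ℂ) (𝓝 (1 - 0 * z0)) :=
      tendsto_const_nhds.sub (tendsto_inv_cocompact.mul_const z0)
    rw [zero_mul, sub_zero] at h1
    refine h1.congr' ?_
    filter_upwards [eventually_ne_cocompact 0] with t ht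
    field_simp
  have hhlim : Tendsto h (cocompact ℂ) (𝓝 κ) := by
    have h1 : Tendsto (fun t : ℂ => (m t / t ^ 4) * ((t⁻¹ * (t - z0)) ^ 4)⁻¹) (cocompact ℂ)
        (𝓝 (κ * (1 ^ 4)⁻¹)) := hlim.mul ((hratio.pow 4).inv₀ (by norm_num))
    rw [one_pow, inv_one, mul_one] at h1
    refine h1.congr' ?_
    filter_upwards [eventually_ne_cocompact 0, eventually_ne_cocompact z0] with t ht ht2
    have h4 : t - z0 ≠ 0 := sub_ne_zero.2 ht2
    simp only [hh, ht2, if_false]
    field_simp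
  have hhc : ∀ t, h t = κ := fun t => hhd.apply_eq_of_tendsto_cocompact t hhlim
  have hdf : deriv f z0 ≠ 0 := by
    intro h1
    have h2 := hhc z0
    simp only [hh, if_true, h1] at h2
    rw [zero_pow (by norm_num), zero_div] at h2
    exact hκ0 h2.symm
  have hmne : ∀ t, t ≠ z0 → m t ≠ 0 := by
    intro t ht h1
    have h2 := hhc t
    simp only [hh, ht, if_false, h1, zero_div] at h2
    exact hκ0 h2.symm
  have hlne : ∀ U G, IsLift D F U G → ∀ t, w t ∈ U → t ≠ z0 → l (G (w t)) ≠ 0 := by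
    intro U G h t ht htz h1
    have h2 := hmloc _ _ h t ht
    rw [h1, zero_pow (by norm_num), zero_div] at h2
    exact hmne t htz h2
  have hdsne : ∀ t ∈ ball z0 r, dslope f z0 t ≠ 0 := by
    intro t ht h1
    have h2 := hh_loc t ht
    rw [h1, zero_pow (by norm_num), zero_div, hhc] at h2
    exact hκ0 h2
  -- the global lift
  set Q : ℂ → E := fun t => if t = z0 then (deriv f z0)⁻¹ • G0 (w z0)
    else (t - z0) • (l (Gf t (w t)))⁻¹ • Gf t (w t) with hQ
  have hQloc : ∀ U G, IsLift D F U G → ∀ t, w t ∈ U → t ≠ z0 →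
      Q t = (t - z0) • (l (G (w t)))⁻¹ • G (w t) := by
    intro U G h t ht htz
    obtain ⟨u, hu, hu1, hu2⟩ := h.gauge (hGf t) ht (hUf t)
    simp only [hQ, htz, if_false]
    rw [hu1, map_smul, smul_eq_mul]
    have h1 := hlne _ _ h t ht htz
    rw [smul_smul ((u * l (G (w t)))⁻¹)]
    congr 2
    field_simp
  have hQz : ∀ t ∈ ball z0 r, Q t = (dslope f z0 t)⁻¹ • G0 (w t) := by
    intro t ht
    by_cases htz : t = z0
    · rw [htz, dslope_same]
      simp [hQ]
    · rw [hQloc _ _ hG0 t (hball t ht) htz]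
      have h2 : l (G0 (w t)) = (t - z0) * dslope f z0 t := hfs t
      have h4 : t - z0 ≠ 0 := sub_ne_zero.2 htz
      rw [h2, smul_smul]
      congr 1
      have := hdsne t ht
      field_simp
  have hQd : Differentiable ℂ Q := by
    intro t
    by_cases ht : t = z0
    · subst ht
      have h1 : Q =ᶠ[𝓝 t] fun τ => (dslope f t τ)⁻¹ • G0 (w τ) := by
        filter_upwards [ball_mem_nhds t hr] with τ hτ
        exact hQz τ hτ
      have h2 := (hds.differentiableAt (ball_mem_nhds t hr)).fun_inv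
        (hdsne t (mem_ball_self hr))
      have h3 : DifferentiableAt ℂ (fun τ => G0 (w τ)) t :=
        (hG0.differentiableAt hU0).comp t (hwd t)
      exact (h2.fun_smul h3).congr_of_eventuallyEq h1
    · have h1 : Q =ᶠ[𝓝 t] fun τ => (τ - z0) • (l (Gf t (w τ)))⁻¹ • Gf t (w τ) := by
        filter_upwards [hev _ _ (hGf t) t (hUf t), eventually_ne_nhds ht] with τ hτ hτ2
        exact hQloc _ _ (hGf t) τ hτ hτ2
      have h2 := (hGd _ _ (hGf t) t (hUf t)).fun_inv (hlne _ _ (hGf t) t (hUf t) ht)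
      have h3 : DifferentiableAt ℂ (fun τ => Gf t (w τ)) t :=
        ((hGf t).differentiableAt (hUf t)).comp t (hwd t)
      have h4 : DifferentiableAt ℂ (fun τ : ℂ => τ - z0) t := by fun_prop
      exact (h4.fun_smul (h2.fun_smul h3)).congr_of_eventuallyEq h1
  set B : E := (l (Gb b))⁻¹ • Gb b with hB
  have hB0 : B ≠ 0 := smul_ne_zero (inv_ne_zero hlb) (hGb.ne b hbU)
  have hQlim : Tendsto (fun t : ℂ => t⁻¹ • Q t) (cocompact ℂ) (𝓝 B) := by
    have h1 : ContinuousAt (fun s => (l (Gb (v s)))⁻¹ • Gb (v s)) 0 := by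
      have h5 : ContinuousAt (fun s => l (Gb (v s))) 0 := l.continuous.continuousAt.comp hGbc
      apply (h5.inv₀ _).smul hGbc
      rw [hv0]; exact hlb
    have h2 : Tendsto (fun s => (l (Gb (v s)))⁻¹ • Gb (v s)) (𝓝 0) (𝓝 B) := by
      have := h1.tendsto
      simpa only [hv0] using this
    have h3 := hratio.smul (h2.comp tendsto_inv_cocompact)
    rw [one_smul] at h3
    refine h3.congr' ?_
    filter_upwards [hevt, eventually_ne_cocompact 0, eventually_ne_cocompact z0] with t ht ht0 htz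
    have hL := hGb.smul ht0
    have he : t⁻¹ • w t = v t⁻¹ := by rw [hwv t ht0, smul_smul, inv_mul_cancel₀ ht0, one_smul]
    have hmem : w t ∈ (fun y : E => t⁻¹ • y) ⁻¹' Ub := by
      simp only [mem_preimage]
      rw [he]
      exact ht
    rw [hQloc _ _ hL t hmem htz]
    simp only [Function.comp_apply, he, smul_smul, mul_assoc]
  have hq : ∀ t, dslope Q z0 t = B := by
    intro t
    have h1 : Differentiable ℂ (dslope Q z0) := by
      rw [← differentiableOn_univ]
      exact (Complex.differentiableOn_dslope univ_mem).2 hQd.differentiableOn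
    apply h1.apply_eq_of_tendsto_cocompact
    have h2 : Tendsto (fun t : ℂ => (t⁻¹ * (t - z0))⁻¹ • (t⁻¹ • Q t - t⁻¹ • Q z0)) (cocompact ℂ)
        (𝓝 ((1 : ℂ)⁻¹ • (B - (0 : ℂ) • Q z0))) :=
      (hratio.inv₀ one_ne_zero).smul (hQlim.sub (tendsto_inv_cocompact.smul_const _))
    rw [inv_one, zero_smul, sub_zero, one_smul] at h2
    refine h2.congr' ?_
    filter_upwards [eventually_ne_cocompact 0, eventually_ne_cocompact z0] with t ht ht2
    rw [dslope_of_ne _ ht2, slope_def_module, ← smul_sub, smul_smul]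
    congr 1
    have h4 : t - z0 ≠ 0 := sub_ne_zero.2 ht2
    field_simp
  have hQlin : ∀ t, Q t = (Q z0 - z0 • B) + t • B := by
    intro t
    have h1 := sub_smul_dslope Q z0 t
    rw [hq t] at h1
    rw [eq_add_of_sub_eq h1.symm, sub_smul]
    abel
  have hQne : ∀ t, Q t ≠ 0 := by
    intro t
    by_cases ht : t = z0
    · rw [ht]
      simp only [hQ, if_true]
      exact smul_ne_zero (inv_ne_zero hdf) (hG0.ne _ hU0)
    · simp only [hQ, ht, if_false]
      exact smul_ne_zero (sub_ne_zero.2 ht) (smul_ne_zero (inv_ne_zero (hlne _ _ (hGf t) t (hUf t) ht))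
        ((hGf t).ne _ (hUf t)))
  have hQF : ∀ t, F (pt (w t)) = pt (Q t) := by
    intro t
    by_cases ht : t = z0
    · rw [ht, hG0.eq _ hU0]
      simp only [hQ, if_true]
      rw [pt_smul (inv_ne_zero hdf)]
    · rw [(hGf t).eq _ (hUf t)]
      simp only [hQ, ht, if_false]
      rw [pt_smul (sub_ne_zero.2 ht), pt_smul (inv_ne_zero (hlne _ _ (hGf t) t (hUf t) ht))]
  have hFb : F (pt b) = pt B := by
    rw [hGb.eq b hbU, hB, pt_smul (inv_ne_zero hlb)]
  refine ⟨Q z0 - z0 • B, B, ?_, ?_⟩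
  · intro s t hst
    by_cases hs : s = 0
    · subst hs
      have ht : t ≠ 0 := by tauto
      rw [zero_smul, zero_add]
      exact smul_ne_zero ht hB0
    · have h1 : s • (Q z0 - z0 • B) + t • B = s • Q (s⁻¹ * t) := by
        rw [hQlin (s⁻¹ * t), smul_add, smul_smul s, ← mul_assoc, mul_inv_cancel₀ hs, one_mul]
      rw [h1]
      exact smul_ne_zero hs (hQne _)
  · intro s t hst
    by_cases hs : s = 0
    · subst hs
      have ht : t ≠ 0 := by tauto
      rw [zero_smul, zero_add, zero_smul, zero_add, pt_smul ht, pt_smul ht, hFb]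
    · have h1 : s • (Q z0 - z0 • B) + t • B = s • Q (s⁻¹ * t) := by
        rw [hQlin (s⁻¹ * t), smul_add, smul_smul s, ← mul_assoc, mul_inv_cancel₀ hs, one_mul]
      have h2 : s • a + t • b = s • w (s⁻¹ * t) := by
        simp only [hw]
        rw [smul_add, smul_smul s, ← mul_assoc, mul_inv_cancel₀ hs, one_mul]
      rw [h1, h2, pt_smul hs, pt_smul hs, hQF]

end Pool.Agent.Helper417.Kl
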