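import Pool.Agent.Helper417.Kl.LineImage

set_option autoImplicit false

namespace Pool.Agent.Helper417.Kl

open Filter Topology Metric Set

/-- linear independence of two vectors -/
def Ind (a b : E) : Prop := ∀ s t : ℂ, (s ≠ 0 ∨ t ≠ 0) → s • a + t • b ≠ 0

/-- the line through two points -/
def ln (a b : E) : Set CP3 := {x | x.submodule ≤ Submodule.span ℂ {a, b}}

/-- the pairs spanning a line contained in `D` -/
def UU (D : Set CP3) : Set (E × E) :=
  {p | ∀ s t : ℂ, (s ≠ 0 ∨ t ≠ 0) → s • p.1 + t • p.2 ∈ cone D}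

variable {D : Set CP3} {F F' : CP3 → CP3} {a b : E}

lemma pt_mem_iff {v : E} (hv : v ≠ 0) {W : Submodule ℂ E} : (pt v).submodule ≤ W ↔ v ∈ W := by
  rw [submodule_pt hv, Submodule.span_singleton_le_iff_mem]

lemma mem_ln (h : Ind a b) {x : CP3} :
    x ∈ ln a b ↔ ∃ s t : ℂ, (s ≠ 0 ∨ t ≠ 0) ∧ x = pt (s • a + t • b) := by
  constructor
  · intro hx
    obtain ⟨v, hv, rfl⟩ := exists_pt x
    have h1 : v ∈ Submodule.span ℂ {a, b} := (pt_mem_iff hv).1 hx
    obtain ⟨s, t, rfl⟩ := Submodule.mem_span_pair.1 h1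
    refine ⟨s, t, ?_, rfl⟩
    by_contra hcon
    push Not at hcon
    rw [hcon.1, hcon.2] at hv
    simp at hv
  · rintro ⟨s, t, hst, rfl⟩
    exact (pt_mem_iff (h s t hst)).2 (Submodule.mem_span_pair.2 ⟨s, t, rfl⟩)

lemma Ind.linearIndependent (h : Ind a b) : LinearIndependent ℂ ![a, b] := by
  rw [Fintype.linearIndependent_iff]
  intro g hg
  simp only [Fin.sum_univ_two, Matrix.cons_val_zero, Matrix.cons_val_one] at hg
  have h1 : ¬ (g 0 ≠ 0 ∨ g 1 ≠ 0) := fun hc => h _ _ hc hg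
  push Not at h1
  intro i
  fin_cases i
  · exact h1.1
  · exact h1.2

lemma Ind.of_linearIndependent (h : LinearIndependent ℂ ![a, b]) : Ind a b := by
  rw [Fintype.linearIndependent_iff] at h
  intro s t hst h0
  have h1 := h ![s, t] (by simpa [Fin.sum_univ_two] using h0)
  have h2 := h1 0
  have h3 := h1 1
  simp only [Matrix.cons_val_zero, Matrix.cons_val_one] at h2 h3
  rcases hst with h4 | h4
  · exact h4 h2
  · exact h4 h3

lemma Ind.finrank (h : Ind a b) : Module.finrank ℂ (Submodule.span ℂ {a, b} : Submodule ℂ E) = 2 := by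
  have h1 := finrank_span_eq_card h.linearIndependent
  have h2 : Set.range ![a, b] = {a, b} := by
    simp [Matrix.range_cons, Matrix.range_empty, Set.pair_comm]
  rw [h2] at h1
  simpa using h1

lemma Ind.isLine (h : Ind a b) : IsLine (ln a b) := ⟨_, h.finrank, rfl⟩

lemma isLine_eq_of_subset {L L' : Set CP3} (hL : IsLine L) (hL' : IsLine L') (h : L ⊆ L') :
    L = L' := by
  obtain ⟨W, hW, rfl⟩ := hL
  obtain ⟨W', hW', rfl⟩ := hL'
  have h1 : W ≤ W' := by
    intro v hv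
    by_cases h0 : v = 0
    · rw [h0]; exact W'.zero_mem
    · have h2 : pt v ∈ {x : CP3 | x.submodule ≤ W} := (pt_mem_iff h0).2 hv
      exact (pt_mem_iff h0).1 (h h2)
  have h2 : W = W' := Submodule.eq_of_le_of_finrank_eq h1 (by rw [hW, hW'])
  rw [h2]

lemma submodule_le_iff {x : CP3} {W : Submodule ℂ E} : x.submodule ≤ W ↔ ∀ v, proj x v ∈ W := by
  constructor
  · intro h v
    exact h (proj_mem x v)
  · intro h v hv
    rw [← proj_eq_self hv]
    exact h v

lemma IsLine.isClosed {L : Set CP3} (hL : IsLine L) : IsClosed L := by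
  obtain ⟨W, hW, rfl⟩ := hL
  have : {x : CP3 | x.submodule ≤ W} = ⋂ v : E, (fun x : CP3 => proj x v) ⁻¹' (W : Set E) := by
    ext x
    simp only [mem_setOf_eq, submodule_le_iff, mem_iInter, mem_preimage, SetLike.mem_coe]
  rw [this]
  apply isClosed_iInter
  intro v
  apply IsClosed.preimage
  · exact continuous_proj.clm_apply continuous_const
  · exact W.closed_of_finiteDimensional

/-- orthonormal pairs -/
def ONs : Set (E × E) := {p | ‖p.1‖ = 1 ∧ ‖p.2‖ = 1 ∧ inner ℂ p.1 p.2 = 0}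

lemma isCompact_ONs : IsCompact ONs := by
  have h1 : ONs = (sphere (0 : E) 1 ×ˢ sphere (0 : E) 1) ∩ {p | inner ℂ p.1 p.2 = 0} := by
    ext p
    simp only [ONs, mem_setOf_eq, mem_inter_iff, mem_prod, mem_sphere_zero_iff_norm, and_assoc]
  rw [h1]
  apply ((isCompact_sphere _ _).prod (isCompact_sphere _ _)).inter_right
  exact isClosed_eq (by fun_prop) continuous_const

lemma ONs.ind {p : E × E} (hp : p ∈ ONs) : Ind p.1 p.2 := by
  obtain ⟨h1, h2, h3⟩ := hp
  intro s t hst h0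
  have e1 : inner ℂ p.1 (s • p.1 + t • p.2) = s := by
    rw [inner_add_right, inner_smul_right, inner_smul_right, h3, inner_self_eq_norm_sq_to_K, h1]
    simp
  have e2 : inner ℂ p.2 (s • p.1 + t • p.2) = t := by
    have h4 : inner ℂ p.2 p.1 = 0 := by rw [← inner_conj_symm, h3, map_zero]
    rw [inner_add_right, inner_smul_right, inner_smul_right, h4, inner_self_eq_norm_sq_to_K, h2]
    simp
  rw [h0, inner_zero_right] at e1 e2
  rcases hst with h | h
  · exact h e1.symm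
  · exact h e2.symm

lemma IsLine.exists_ON {L : Set CP3} (hL : IsLine L) : ∃ p ∈ ONs, L = ln p.1 p.2 := by
  obtain ⟨W, hW, rfl⟩ := hL
  set e := (stdOrthonormalBasis ℂ W).reindex (finCongr hW) with he
  have h1 : (((e 0 : W) : E), ((e 1 : W) : E)) ∈ ONs := by
    refine ⟨?_, ?_, ?_⟩
    · exact e.norm_eq_one 0
    · exact e.norm_eq_one 1
    · exact e.inner_eq_zero (i := 0) (j := 1) (by decide)
  refine ⟨_, h1, ?_⟩
  have h2 := ONs.ind h1
  have h3 : Submodule.span ℂ {((e 0 : W) : E), ((e 1 : W) : E)} = W := by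
    apply Submodule.eq_of_le_of_finrank_eq
    · rw [Submodule.span_le]
      rintro v (rfl | rfl)
      · exact (e 0).2
      · exact (e 1).2
    · rw [hW]; exact h2.finrank
  ext x
  simp only [ln, mem_setOf_eq, h3]

lemma mem_UU_iff {p : E × E} : p ∈ UU D ↔ Ind p.1 p.2 ∧ ln p.1 p.2 ⊆ D := by
  constructor
  · intro h
    have h1 : Ind p.1 p.2 := fun s t hst => (mem_cone.1 (h s t hst)).1
    refine ⟨h1, ?_⟩
    intro x hx
    obtain ⟨s, t, hst, rfl⟩ := (mem_ln h1).1 hx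
    exact (mem_cone.1 (h s t hst)).2
  · rintro ⟨h1, h2⟩ s t hst
    exact mem_cone.2 ⟨h1 s t hst, h2 ((mem_ln h1).2 ⟨s, t, hst, rfl⟩)⟩

/-- the tube lemma for cones -/
lemma isOpen_forall_cone {O : Set E} (hO : IsOpen O) (hc : ∀ z ∈ O, ∀ c : ℂ, c ≠ 0 → c • z ∈ O) :
    IsOpen {p : E × E | ∀ s t : ℂ, (s ≠ 0 ∨ t ≠ 0) → s • p.1 + t • p.2 ∈ O} := by
  rw [isOpen_iff_eventually]
  intro p0 hp0
  have hK : IsCompact (sphere (0 : ℂ × ℂ) 1) := isCompact_sphere _ _
  have h1 : ∀ᶠ p : E × E in 𝓝 p0, ∀ y ∈ sphere (0 : ℂ × ℂ) 1, y.1 • p.1 + y.2 • p.2 ∈ O := by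
    apply hK.eventually_forall_of_forall_eventually
    intro y hy
    have hcont : Continuous fun z : (E × E) × (ℂ × ℂ) => z.2.1 • z.1.1 + z.2.2 • z.1.2 := by
      fun_prop
    apply hcont.continuousAt.eventually_mem
    apply hO.mem_nhds
    apply hp0
    by_contra hcon
    push Not at hcon
    have : y = 0 := Prod.ext hcon.1 hcon.2
    rw [this] at hy
    simp at hy
  filter_upwards [h1] with p hp s t hst
  have hne : ((s, t) : ℂ × ℂ) ≠ 0 := by
    intro h
    have h2 := congrArg Prod.fst h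
    have h3 := congrArg Prod.snd h
    simp only [Prod.fst_zero, Prod.snd_zero] at h2 h3
    rcases hst with h4 | h4
    · exact h4 h2
    · exact h4 h3
  have hn : ‖((s, t) : ℂ × ℂ)‖ ≠ 0 := norm_ne_zero_iff.2 hne
  set r : ℂ := ((‖((s, t) : ℂ × ℂ)‖ : ℝ) : ℂ) with hr
  have hr0 : r ≠ 0 := Complex.ofReal_ne_zero.2 hn
  have h2 := hp (r⁻¹ • ((s, t) : ℂ × ℂ)) (by
    rw [mem_sphere_zero_iff_norm, norm_smul, norm_inv, hr, Complex.norm_real, norm_norm]
    field_simp)
  have h3 := hc _ h2 r hr0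
  simp only [Prod.smul_mk, smul_eq_mul, smul_add, smul_smul] at h3
  rwa [mul_inv_cancel_left₀ hr0, mul_inv_cancel_left₀ hr0] at h3

lemma isOpen_UU (hD : IsOpen D) : IsOpen (UU D) :=
  isOpen_forall_cone (isOpen_cone hD) fun _ hz _ hc => smul_mem_cone hc hz

lemma HoloOn.continuousAt_comp (hF : HoloOn D F) {z : E} (hz : z ∈ cone D) :
    ContinuousAt (fun y => F (pt y)) z := by
  obtain ⟨U, G, hzU, hG⟩ := hF z hz
  have h1 : ContinuousAt (fun y => pt (G y)) z :=
    ContinuousAt.comp (continuousAt_pt (hG.ne z hzU)) (hG.differentiableAt hzU).continuousAt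
  refine h1.congr ?_
  filter_upwards [hG.isOpen.mem_nhds hzU] with y hy
  exact (hG.eq y hy).symm

lemma HoloOn.continuousAt (hF : HoloOn D F) {x : CP3} (hx : x ∈ D) : ContinuousAt F x := by
  obtain ⟨z, hz, rfl⟩ := exists_pt x
  obtain ⟨h1, h2⟩ := section_tendsto (l := 𝓝 (pt z)) hz tendsto_id
  have h3 := (hF.continuousAt_comp (mem_cone.2 ⟨hz, hx⟩)).tendsto.comp h1
  refine Tendsto.congr' ?_ h3
  filter_upwards [h2] with y hy
  simp only [Function.comp_apply]
  rw [hy.2]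
  rfl

/-- lines mapped by `F` into an open set form an open set -/
lemma isOpen_image_subset (hD : IsOpen D) (hF : HoloOn D F) {N : Set CP3} (hN : IsOpen N) :
    IsOpen {p : E × E | p ∈ UU D ∧ F '' ln p.1 p.2 ⊆ N} := by
  have hO : IsOpen {z : E | z ∈ cone D ∧ F (pt z) ∈ N} := by
    rw [isOpen_iff_mem_nhds]
    rintro z ⟨hz, hz2⟩
    filter_upwards [(isOpen_cone hD).mem_nhds hz,
      (hF.continuousAt_comp hz).eventually_mem (hN.mem_nhds hz2)] with y h1 h2
    exact ⟨h1, h2⟩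
  have h1 := isOpen_forall_cone hO (fun z hz c hc => ⟨smul_mem_cone hc hz.1, by
    rw [pt_smul hc]; exact hz.2⟩)
  convert h1 using 1
  ext p
  constructor
  · rintro ⟨hp, hp2⟩ s t hst
    refine ⟨hp s t hst, hp2 ⟨_, ?_, rfl⟩⟩
    exact (mem_ln (mem_UU_iff.1 hp).1).2 ⟨s, t, hst, rfl⟩
  · intro hp
    have hp1 : p ∈ UU D := fun s t hst => (hp s t hst).1
    refine ⟨hp1, ?_⟩
    rintro _ ⟨x, hx, rfl⟩
    obtain ⟨s, t, hst, rfl⟩ := (mem_ln (mem_UU_iff.1 hp1).1).1 hx
    exact (hp s t hst).2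

lemma eventually_ln_subset {α : Type*} {l : Filter α} {p : α → E × E} {p0 : E × E}
    (hp0 : Ind p0.1 p0.2) (hp : Tendsto p l (𝓝 p0)) {N : Set CP3} (hN : IsOpen N)
    (h : ln p0.1 p0.2 ⊆ N) : ∀ᶠ n in l, ln (p n).1 (p n).2 ⊆ N := by
  have h1 : p0 ∈ UU N := mem_UU_iff.2 ⟨hp0, h⟩
  filter_upwards [hp.eventually_mem ((isOpen_UU hN).mem_nhds h1)] with n hn
  exact (mem_UU_iff.1 hn).2

lemma eventually_ln_inter {α : Type*} {l : Filter α} {p : α → E × E} {p0 : E × E}
    (hp0 : Ind p0.1 p0.2) (hp : Tendsto p l (𝓝 p0)) {N : Set CP3} (hN : IsOpen N)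
    (h : (ln p0.1 p0.2 ∩ N).Nonempty) : ∀ᶠ n in l, (ln (p n).1 (p n).2 ∩ N).Nonempty := by
  obtain ⟨x, hx1, hx2⟩ := h
  obtain ⟨s, t, hst, rfl⟩ := (mem_ln hp0).1 hx1
  have h1 : Tendsto (fun n => s • (p n).1 + t • (p n).2) l (𝓝 (s • p0.1 + t • p0.2)) := by
    have : Continuous fun q : E × E => s • q.1 + t • q.2 := by fun_prop
    exact (this.tendsto p0).comp hp
  have h2 := h1.eventually_mem ((isOpen_cone hN).mem_nhds (mem_cone.2 ⟨hp0 s t hst, hx2⟩))
  filter_upwards [h2] with n hn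
  have hn' := mem_cone.1 hn
  exact ⟨_, (pt_mem_iff hn'.1).2 (Submodule.mem_span_pair.2 ⟨s, t, rfl⟩), hn'.2⟩

end Pool.Agent.Helper417.Kl
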