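import Pool.Agent.Helper417.Kl.UConn

set_option autoImplicit false

namespace Pool.Agent.Helper417.Kl

open Filter Topology Metric Set MeasureTheory
open scoped ENNReal NNReal

variable {D : Set CP3}

/-- ratio of two coordinates -/
noncomputable def rat (e1 e2 : E) (P : E →L[ℂ] E) : ℂ := inner ℂ e2 (P e1) / inner ℂ e1 (P e1)

lemma rat_pt {e1 e2 z : E} (hz : z ≠ 0) (h1 : inner ℂ e1 z ≠ 0) :
    rat e1 e2 (proj (pt z)) = inner ℂ e2 z / inner ℂ e1 z ∧
      inner ℂ e1 (proj (pt z) e1) ≠ 0 := by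
  have hn : (((‖z‖ ^ 2 : ℝ) : ℂ)) ≠ 0 := by
    have : ‖z‖ ≠ 0 := norm_ne_zero_iff.2 hz
    exact_mod_cast pow_ne_zero 2 this
  have h2 : inner ℂ z e1 ≠ 0 := by
    intro h
    apply h1
    rw [← inner_conj_symm, h, map_zero]
  unfold rat
  rw [proj_pt_apply z e1 hz, inner_smul_right, inner_smul_right]
  constructor
  · rw [mul_div_mul_left _ _ (div_ne_zero h2 hn)]
  · exact mul_ne_zero (div_ne_zero h2 hn) h1

lemma contDiffAt_rat {e1 e2 : E} {P : E →L[ℂ] E} (h : inner ℂ e1 (P e1) ≠ 0) :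
    ContDiffAt ℂ 1 (rat e1 e2) P := by
  unfold rat
  have h1 : ContDiff ℂ 1 (fun P : E →L[ℂ] E => P e1) :=
    (ContinuousLinearMap.apply ℂ E e1).contDiff
  have h2 : ∀ e : E, ContDiff ℂ 1 (fun P : E →L[ℂ] E => inner ℂ e (P e1)) := fun e =>
    (innerSL ℂ e).contDiff.comp h1
  exact (h2 e2).contDiffAt.div (h2 e1).contDiffAt h

/-- the complement is small in every chart -/
lemma thin_chart (hm : μH[2] Dᶜ < ⊤) (e1 e2 e3 : E) (c0 : ℂ × ℂ) :
    {c : ℂ × ℂ | ∃ x ∈ Dᶜ, inner ℂ e1 (proj x e1) ≠ 0 ∧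
      (rat e1 e2 (proj x), rat e1 e3 (proj x)) = c} ∉ 𝓝 c0 := by
  intro hn
  set S : Set CP3 := {x | x ∈ Dᶜ ∧ inner ℂ e1 (proj x e1) ≠ 0} with hS
  set χ : CP3 → ℂ × ℂ := fun x => (rat e1 e2 (proj x), rat e1 e3 (proj x)) with hχ
  have h1 : {c : ℂ × ℂ | ∃ x ∈ Dᶜ, inner ℂ e1 (proj x e1) ≠ 0 ∧
      (rat e1 e2 (proj x), rat e1 e3 (proj x)) = c} = χ '' S := by
    ext c
    constructor
    · rintro ⟨x, hx, hx2, rfl⟩
      exact ⟨x, ⟨hx, hx2⟩, rfl⟩
    · rintro ⟨x, ⟨hx, hx2⟩, rfl⟩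
      exact ⟨x, hx, hx2, rfl⟩
  rw [h1] at hn
  have h2 : dimH (χ '' S) = 4 := by
    rw [Real.dimH_of_mem_nhds hn]
    have : Module.finrank ℝ (ℂ × ℂ) = 4 := by
      rw [Module.finrank_prod, Complex.finrank_real_complex]
    rw [this]
    norm_num
  have h3 : dimH (χ '' S) ≤ dimH S := by
    apply dimH_image_le_of_locally_lipschitzOn
    rintro x ⟨hx, hx2⟩
    have hc : ContDiffAt ℂ 1 (fun P : E →L[ℂ] E => (rat e1 e2 P, rat e1 e3 P)) (proj x) :=
      (contDiffAt_rat hx2).prodMk (contDiffAt_rat hx2)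
    obtain ⟨C, t, ht, hL⟩ := hc.exists_lipschitzOnWith
    refine ⟨C, proj ⁻¹' t, mem_nhdsWithin_of_mem_nhds (continuous_proj.continuousAt ht), ?_⟩
    intro y hy z hz
    have := hL hy hz
    rwa [isometry_proj.edist_eq] at this
  have h4 : dimH S ≤ dimH Dᶜ := dimH_mono fun x hx => hx.1
  have h5 : dimH Dᶜ ≤ ((2 : ℝ≥0) : ℝ≥0∞) := by
    apply dimH_le_of_hausdorffMeasure_ne_top
    have : ((2 : ℝ≥0) : ℝ) = 2 := by norm_num
    rw [this]
    exact hm.ne
  have h6 : (4 : ℝ≥0∞) ≤ ((2 : ℝ≥0) : ℝ≥0∞) := by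
    rw [← h2]
    exact h3.trans (h4.trans h5)
  norm_num at h6

lemma exists_orthonormal_compl {a : E} (ha : a ≠ 0) : ∃ e1 e2 e3 : E,
    inner ℂ e1 a = 0 ∧ inner ℂ e2 a = 0 ∧ inner ℂ e3 a = 0 ∧
    inner ℂ e1 e1 = 1 ∧ inner ℂ e2 e2 = 1 ∧ inner ℂ e3 e3 = 1 ∧
    inner ℂ e1 e2 = 0 ∧ inner ℂ e1 e3 = 0 ∧ inner ℂ e2 e3 = 0 ∧
    inner ℂ e2 e1 = 0 ∧ inner ℂ e3 e1 = 0 ∧ inner ℂ e3 e2 = 0 := by
  set W : Submodule ℂ E := (ℂ ∙ a)ᗮ with hW
  have hfr : Module.finrank ℂ W = 3 := by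
    have h1 := Submodule.finrank_add_finrank_orthogonal (ℂ ∙ a)
    rw [finrank_span_singleton ha, finrank_euclideanSpace_fin] at h1
    rw [hW]
    omega
  set e := (stdOrthonormalBasis ℂ W).reindex (finCongr hfr) with he
  have h1 : ∀ i, inner ℂ ((e i : W) : E) a = 0 := fun i =>
    Submodule.inner_left_of_mem_orthogonal (Submodule.mem_span_singleton_self a) (e i).2
  have h2 : ∀ i, inner ℂ ((e i : W) : E) ((e i : W) : E) = 1 := fun i => by
    have := e.inner_eq_one i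
    exact this
  have h3 : ∀ i j, i ≠ j → inner ℂ ((e i : W) : E) ((e j : W) : E) = 0 := fun i j hij => by
    have := e.inner_eq_zero hij
    exact this
  exact ⟨e 0, e 1, e 2, h1 0, h1 1, h1 2, h2 0, h2 1, h2 2, h3 0 1 (by decide), h3 0 2 (by decide),
    h3 1 2 (by decide), h3 1 0 (by decide), h3 2 0 (by decide), h3 2 1 (by decide)⟩

lemma dense_of_thin (hm : μH[2] Dᶜ < ⊤) : Dense D := by
  by_contra hcon
  rw [Metric.dense_iff] at hcon
  push Not at hcon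
  obtain ⟨x0, r, hr, hball⟩ := hcon
  obtain ⟨a, ha, rfl⟩ := exists_pt x0
  obtain ⟨e2, e3, -, h2a, h3a, -, h22, h33, -, h23, -, -, h32, -⟩ := exists_orthonormal_compl ha
  have hn : ((‖a‖ : ℝ) : ℂ) ≠ 0 := Complex.ofReal_ne_zero.2 (norm_ne_zero_iff.2 ha)
  have haa : inner ℂ a a ≠ (0 : ℂ) := inner_self_ne_zero.2 ha
  apply thin_chart hm a e2 e3 (0, 0)
  have hinner : ∀ c : ℂ × ℂ, inner ℂ a (a + c.1 • e2 + c.2 • e3) = inner ℂ a a := by
    intro c
    have h4 : inner ℂ a e2 = 0 := by rw [← inner_conj_symm, h2a, map_zero]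
    have h5 : inner ℂ a e3 = 0 := by rw [← inner_conj_symm, h3a, map_zero]
    rw [inner_add_right, inner_add_right, inner_smul_right, inner_smul_right, h4, h5]
    ring
  have hne : ∀ c : ℂ × ℂ, a + c.1 • e2 + c.2 • e3 ≠ 0 := by
    intro c h0
    apply haa
    rw [← hinner c, h0, inner_zero_right]
  have hcont : Tendsto (fun c : ℂ × ℂ => pt (a + (inner ℂ a a * c.1) • e2 +
      (inner ℂ a a * c.2) • e3)) (𝓝 (0, 0)) (𝓝 (pt a)) := by
    have h1 : Continuous fun c : ℂ × ℂ => a + (inner ℂ a a * c.1) • e2 +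
      (inner ℂ a a * c.2) • e3 := by fun_prop
    have h4 := h1.tendsto (0, 0)
    simp only [mul_zero, zero_smul, add_zero] at h4
    exact (continuousAt_pt ha).tendsto.comp h4
  filter_upwards [hcont.eventually_mem (ball_mem_nhds (pt a) hr)] with c hc
  have hne' := hne (inner ℂ a a * c.1, inner ℂ a a * c.2)
  have hi' := hinner (inner ℂ a a * c.1, inner ℂ a a * c.2)
  simp only at hne' hi'
  refine ⟨pt (a + (inner ℂ a a * c.1) • e2 + (inner ℂ a a * c.2) • e3), fun hD => ?_, ?_, ?_⟩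
  · have : pt (a + (inner ℂ a a * c.1) • e2 + (inner ℂ a a * c.2) • e3) ∈ ball (pt a) r ∩ D :=
      ⟨hc, hD⟩
    rw [hball] at this
    exact this
  · exact (rat_pt (e2 := e2) hne' (by rw [hi']; exact haa)).2
  · have h6 : inner ℂ e2 (a + (inner ℂ a a * c.1) • e2 + (inner ℂ a a * c.2) • e3) =
        inner ℂ a a * c.1 := by
      rw [inner_add_right, inner_add_right, inner_smul_right, inner_smul_right, h2a, h22, h23]
      ring
    have h7 : inner ℂ e3 (a + (inner ℂ a a * c.1) • e2 + (inner ℂ a a * c.2) • e3) =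
        inner ℂ a a * c.2 := by
      rw [inner_add_right, inner_add_right, inner_smul_right, inner_smul_right, h3a, h33, h32]
      ring
    rw [(rat_pt (e2 := e2) hne' (by rw [hi']; exact haa)).1,
      (rat_pt (e2 := e3) hne' (by rw [hi']; exact haa)).1, h6, h7, hi',
      mul_div_cancel_left₀ _ haa, mul_div_cancel_left₀ _ haa]

/-- through every point of `D` there is a line contained in `D` -/
lemma through_of_thin (hm : μH[2] Dᶜ < ⊤) : ∀ x ∈ D, ∃ p ∈ UU D, pt p.1 = x := by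
  intro x hx
  obtain ⟨a, ha, rfl⟩ := exists_pt x
  obtain ⟨e1, e2, e3, h1a, h2a, h3a, h11, h22, h33, h12, h13, h23, h21, h31, h32⟩ :=
    exists_orthonormal_compl ha
  by_contra hcon
  push Not at hcon
  apply thin_chart hm e1 e2 e3 (0, 0)
  apply Filter.univ_mem'
  intro c
  have h1 : ¬ (∀ s t : ℂ, (s ≠ 0 ∨ t ≠ 0) → s • a + t • (e1 + c.1 • e2 + c.2 • e3) ∈ cone D) :=
    fun h => hcon (a, e1 + c.1 • e2 + c.2 • e3) h rfl
  push Not at h1
  obtain ⟨s, t, hst, h2⟩ := h1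
  have ht : t ≠ 0 := by
    rintro rfl
    have hs : s ≠ 0 := by tauto
    rw [zero_smul, add_zero] at h2
    exact h2 (smul_mem_cone hs (mem_cone.2 ⟨ha, hx⟩))
  set z := s • a + t • (e1 + c.1 • e2 + c.2 • e3) with hz
  have i1 : inner ℂ e1 z = t := by
    simp only [hz, inner_add_right, inner_smul_right, h1a, h11, h12, h13]
    ring
  have i2 : inner ℂ e2 z = t * c.1 := by
    simp only [hz, inner_add_right, inner_smul_right, h2a, h21, h22, h23]
    ring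
  have i3 : inner ℂ e3 z = t * c.2 := by
    simp only [hz, inner_add_right, inner_smul_right, h3a, h31, h32, h33]
    ring
  have hz0 : z ≠ 0 := by
    intro h0
    rw [h0, inner_zero_right] at i1
    exact ht i1.symm
  have hi : inner ℂ e1 z ≠ 0 := by rw [i1]; exact ht
  refine ⟨pt z, fun h3 => h2 (mem_cone.2 ⟨hz0, h3⟩), (rat_pt (e2 := e2) hz0 hi).2, ?_⟩
  rw [(rat_pt (e2 := e2) hz0 hi).1, (rat_pt (e2 := e3) hz0 hi).1, i1, i2, i3,
    mul_div_cancel_left₀ _ ht, mul_div_cancel_left₀ _ ht]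

end Pool.Agent.Helper417.Kl
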