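import Pool.Agent.Helper417.Kl.Basic

set_option autoImplicit false

namespace Pool.Agent.Helper417.Kl

open Projectivization MeasureTheory Filter Topology Metric Set
open scoped LinearAlgebra.Projectivization ComplexConjugate

lemma dist_unit {v w : E} (hv : ‖v‖ = 1) (hw : ‖w‖ = 1) :
    dist (pt v) (pt w) ^ 2 = 1 - ‖(inner ℂ v w : ℂ)‖ ^ 2 := by
  have hv0 : v ≠ 0 := by rintro rfl; simp at hv
  have hw0 : w ≠ 0 := by rintro rfl; simp at hw
  set c : ℂ := inner ℂ v w with hc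
  have hvv : inner ℂ v v = (1 : ℂ) := by rw [inner_self_eq_norm_sq_to_K, hv]; simp
  have hww : inner ℂ w w = (1 : ℂ) := by rw [inner_self_eq_norm_sq_to_K, hw]; simp
  have hwv : inner ℂ w v = conj c := by rw [hc, inner_conj_symm]
  have hP : ∀ x, proj (pt v) x = (inner ℂ v x : ℂ) • v := by
    intro x; rw [proj_pt_apply v x hv0, hv]; simp
  have hQ : ∀ x, proj (pt w) x = (inner ℂ w x : ℂ) • w := by
    intro x; rw [proj_pt_apply w x hw0, hw]; simp
  have hnorm : ∀ z : E, (inner ℂ z z : ℂ) = ((‖z‖ ^ 2 : ℝ) : ℂ) := by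
    intro z; rw [inner_self_eq_norm_sq_to_K]; push_cast; rfl
  have hcc : (1 - c * conj c : ℂ) = ((1 - ‖c‖ ^ 2 : ℝ) : ℂ) := by
    rw [Complex.mul_conj, Complex.normSq_eq_norm_sq]; push_cast; ring
  have hu : ‖w - c • v‖ ^ 2 = 1 - ‖c‖ ^ 2 := by
    apply Complex.ofReal_injective
    rw [← hnorm, ← hcc, inner_sub_left, inner_sub_right, inner_sub_right, inner_smul_left,
      inner_smul_left, inner_smul_right, inner_smul_right, hvv, hww, hwv, ← hc]
    ring
  have hc1 : 0 ≤ 1 - ‖c‖ ^ 2 := by rw [← hu]; positivity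
  have hval : ∀ x : E, ‖(proj (pt v) - proj (pt w)) x‖ ^ 2 ≤ (1 - ‖c‖ ^ 2) * ‖x‖ ^ 2 := by
    intro x
    set a : ℂ := inner ℂ v x with ha
    set b : ℂ := inner ℂ w x with hb
    set k : ℂ := inner ℂ (w - c • v) (x - a • v) with hk
    have hxv : inner ℂ x v = conj a := by rw [ha, inner_conj_symm]
    have hxw : inner ℂ x w = conj b := by rw [hb, inner_conj_symm]
    have hkb : k = b - conj c * a := by
      rw [hk, inner_sub_left, inner_sub_right, inner_sub_right, inner_smul_left,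
        inner_smul_left, inner_smul_right, inner_smul_right, hvv, hwv, ← ha, ← hb]
      ring
    have hy : ‖x - a • v‖ ^ 2 = ‖x‖ ^ 2 - ‖a‖ ^ 2 := by
      apply Complex.ofReal_injective
      have e1 : ((‖x‖ ^ 2 - ‖a‖ ^ 2 : ℝ) : ℂ) = inner ℂ x x - a * conj a := by
        rw [hnorm, Complex.mul_conj, Complex.normSq_eq_norm_sq]; push_cast; ring
      rw [← hnorm, e1, inner_sub_left, inner_sub_right, inner_sub_right, inner_smul_left,
        inner_smul_left, inner_smul_right, inner_smul_right, hvv, hxv, ← ha]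
      ring
    have hk2 : ‖k‖ ^ 2 ≤ (1 - ‖c‖ ^ 2) * (‖x‖ ^ 2 - ‖a‖ ^ 2) := by
      rw [← hu, ← hy, ← mul_pow]
      exact pow_le_pow_left₀ (norm_nonneg _) (norm_inner_le_norm _ _) 2
    have hmain : ‖a • v - b • w‖ ^ 2 = ‖k‖ ^ 2 + (1 - ‖c‖ ^ 2) * ‖a‖ ^ 2 := by
      apply Complex.ofReal_injective
      have e1 : ((‖k‖ ^ 2 + (1 - ‖c‖ ^ 2) * ‖a‖ ^ 2 : ℝ) : ℂ) =
          k * conj k + (1 - c * conj c) * (a * conj a) := by
        simp only [Complex.mul_conj, Complex.normSq_eq_norm_sq]; push_cast; ring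
      rw [← hnorm, e1, hkb, inner_sub_left, inner_sub_right, inner_sub_right, inner_smul_left,
        inner_smul_left, inner_smul_right, inner_smul_right, inner_smul_left, inner_smul_left,
        inner_smul_right, inner_smul_right, hvv, hww, hwv, ← hc]
      simp only [map_sub, map_mul, Complex.conj_conj]
      ring
    have e : (proj (pt v) - proj (pt w)) x = a • v - b • w := by
      show proj (pt v) x - proj (pt w) x = _
      rw [hP, hQ]
    rw [e, hmain]
    nlinarith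
  rw [dist_eq]
  apply le_antisymm
  · have h1 : ‖proj (pt v) - proj (pt w)‖ ≤ Real.sqrt (1 - ‖c‖ ^ 2) := by
      apply ContinuousLinearMap.opNorm_le_bound _ (Real.sqrt_nonneg _)
      intro x
      rw [← Real.sqrt_sq (norm_nonneg x), ← Real.sqrt_mul hc1]
      exact Real.le_sqrt_of_sq_le (hval x)
    calc ‖proj (pt v) - proj (pt w)‖ ^ 2 ≤ Real.sqrt (1 - ‖c‖ ^ 2) ^ 2 :=
          pow_le_pow_left₀ (norm_nonneg _) h1 2
      _ = 1 - ‖c‖ ^ 2 := Real.sq_sqrt hc1
  · have h1 := (proj (pt v) - proj (pt w)).le_opNorm w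
    rw [hw, mul_one] at h1
    have e : (proj (pt v) - proj (pt w)) w = -(w - c • v) := by
      show proj (pt v) w - proj (pt w) w = _
      rw [hP, hQ, hww, one_smul, ← hc]
      abel
    rw [e, norm_neg] at h1
    calc 1 - ‖c‖ ^ 2 = ‖w - c • v‖ ^ 2 := hu.symm
      _ ≤ _ := pow_le_pow_left₀ (norm_nonneg _) h1 2

/-- The distance of `ℂℙ³` is the sine of the Fubini-Study distance
`d_FS([v], [w]) = arccos (|⟨v, w⟩| / (‖v‖ ‖w‖))`. -/
theorem dist_mk_sq {v w : E} (hv : v ≠ 0) (hw : w ≠ 0) :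
    dist (mk ℂ v hv) (mk ℂ w hw) ^ 2 = 1 - (‖(inner ℂ v w : ℂ)‖ / (‖v‖ * ‖w‖)) ^ 2 := by
  have hv' : (((‖v‖ : ℝ) : ℂ)⁻¹) ≠ 0 := inv_ne_zero (Complex.ofReal_ne_zero.2 (norm_ne_zero_iff.2 hv))
  have hw' : (((‖w‖ : ℝ) : ℂ)⁻¹) ≠ 0 := inv_ne_zero (Complex.ofReal_ne_zero.2 (norm_ne_zero_iff.2 hw))
  have hvn : ‖v‖ ≠ 0 := norm_ne_zero_iff.2 hv
  have hwn : ‖w‖ ≠ 0 := norm_ne_zero_iff.2 hw
  rw [← pt_of_ne hv, ← pt_of_ne hw, ← pt_smul hv' v, ← pt_smul hw' w, dist_unit]
  · rw [inner_smul_left, inner_smul_right, norm_mul, norm_mul, RCLike.norm_conj, norm_inv, norm_inv,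
      Complex.norm_real, Complex.norm_real, norm_norm, norm_norm]
    field_simp
  · rw [norm_smul, norm_inv, Complex.norm_real, norm_norm]
    exact inv_mul_cancel₀ hvn
  · rw [norm_smul, norm_inv, Complex.norm_real, norm_norm]
    exact inv_mul_cancel₀ hwn

/-- The topology of `ℂℙ³` is the quotient topology of `ℂ⁴ ∖ {0}`. -/
theorem isOpen_iff_cone {S : Set CP3} : IsOpen S ↔ IsOpen (cone S) := by
  constructor
  · exact isOpen_cone
  · intro h
    rw [isOpen_iff_mem_nhds]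
    intro x hx
    obtain ⟨z, hz, rfl⟩ := exists_pt x
    obtain ⟨h1, h2⟩ := section_tendsto (l := 𝓝 (pt z)) hz tendsto_id
    filter_upwards [h1.eventually_mem (h.mem_nhds (mem_cone.2 ⟨hz, hx⟩)), h2] with y hy1 hy2
    have := (mem_cone.1 hy1).2
    rw [hy2.2] at this
    exact this

end Pool.Agent.Helper417.Kl
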