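import Pool.Agent.Helper417.Kl.Label
import Pool.Agent.Helper417.Mer.ThinCompl

set_option autoImplicit false

namespace Pool.Agent.Helper417.Kl

open Filter Topology Metric Set

variable {D : Set CP3} {Γ : Subgroup (Equiv.Perm CP3)} {T : Set CP3 → Set CP3}
  {K O : Set (E × E)}

/-- the points whose line is close to `L` -/
def UL (Γ : Subgroup (Equiv.Perm CP3)) (O : Set (E × E)) (T : Set CP3 → Set CP3) (L : Set CP3) :
    Set CP3 :=
  {x | ∃ g ∈ Γ, ∃ q ∈ O, x = g (pt q.1) ∧ g '' ln q.1 q.2 ⊆ T L}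

lemma Dat.isOpen_UL (h : Dat D Γ) (hf : Fam D Γ K O) (hT : Lab D T) (L : Set CP3) :
    IsOpen (UL Γ O T L) := by
  rw [isOpen_iff_mem_nhds]
  rintro x ⟨g, hg, q, hq, rfl, hq2⟩
  have hqU : q ∈ UU D := hf.subU (hf.sub hq)
  have hxD : g (pt q.1) ∈ D := h.pres g hg _ (pt_mem_of_UU hqU)
  have h1 : Tendsto (fun x : CP3 => g⁻¹ x) (𝓝 (g (pt q.1))) (𝓝 (pt q.1)) := by
    have := ((h.holo g⁻¹ (Γ.inv_mem hg)).continuousAt hxD).tendsto
    simpa using this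
  obtain ⟨h2, h3⟩ := section_tendsto (ne_zero_of_UU hqU) h1
  have h4 : Tendsto (fun x : CP3 => (proj (g⁻¹ x) q.1, q.2)) (𝓝 (g (pt q.1))) (𝓝 q) := by
    have := h2.prodMk_nhds (tendsto_const_nhds (x := q.2))
    exact this
  have h5 : O ∩ {r | r ∈ UU D ∧ g '' ln r.1 r.2 ⊆ T L} ∈ 𝓝 q :=
    (hf.isOpen.inter (isOpen_image_subset h.isOpen (h.holo _ hg) (hT.isOpen L))).mem_nhds
      ⟨hq, hqU, hq2⟩
  filter_upwards [h3, h4.eventually_mem h5] with x hx1 hx2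
  refine ⟨g, hg, _, hx2.1, ?_, hx2.2.2⟩
  show x = g (pt (proj (g⁻¹ x) q.1))
  rw [hx1.2]
  simp

lemma Dat.not_mem_closure_A (h : Dat D Γ) (hf : Fam D Γ K O) (hT : Lab D T) {p : CP3}
    (hp : p ∉ D) : p ∉ closure {x | x ∈ D ∧ ∀ L ∈ LL D, x ∉ UL Γ O T L} := by
  intro hcl
  obtain ⟨x, hx, hlim⟩ := mem_closure_iff_seq_limit.1 hcl
  have h1 : ∀ n, ∃ g ∈ Γ, ∃ q ∈ O, x n = g (pt q.1) := fun n => hf.cov _ (hx n).1
  choose g hg q hq hxq using h1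
  have hlim2 : Tendsto (fun n => g n (pt (q n).1)) atTop (𝓝 p) := by
    simpa only [← hxq] using hlim
  obtain ⟨φ, hφ, L, hL, hL2, hpL, hev⟩ := h.approach hf.compact hf.subU hg
    (fun n => hf.sub (hq n)) hp hlim2
  obtain ⟨n, hn⟩ := (hev _ (hT.isOpen L) (hT.sub L)).exists
  exact (hx (φ n)).2 L ⟨hL, hL2⟩ ⟨_, hg _, _, hq _, hxq _, hn⟩

lemma Dat.label_eq (h : Dat D Γ) (hK : IsCompact K) (hKU : K ⊆ UU D) (hT : Lab D T)
    (hUc : IsPreconnected (UU D)) {g : ℕ → Equiv.Perm CP3} (hg : ∀ n, g n ∈ Γ)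
    (hgc : Tendsto g atTop cofinite) {δ : Equiv.Perm CP3} (hδ : δ ∈ Γ) {q q' : ℕ → E × E}
    (hq : ∀ n, q n ∈ K) (hq' : ∀ n, q' n ∈ K) {L L' : Set CP3} (hL : L ∈ LL D) (hL' : L' ∈ LL D)
    (h1 : ∀ n, g n '' ln (q n).1 (q n).2 ⊆ T L)
    (h2 : ∀ n, (g n * δ) '' ln (q' n).1 (q' n).2 ⊆ T L') : L = L' := by
  have hUn : (UU D).Nonempty := ⟨q 0, hKU (hq 0)⟩
  -- first label
  obtain ⟨ψ, hψ, Λ0, hΛ0, hl0⟩ := h.label hT hUc hUn hg hgc
  have e1 : L = Λ0 := by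
    obtain ⟨q0, hq0, φ, hφ, hlim⟩ := hK.tendsto_subseq (x := q ∘ ψ) (fun n => hq _)
    obtain ⟨W, hW, n0, hn0⟩ := hl0 q0 (hKU hq0)
    obtain ⟨n, hn1, hn2⟩ := ((hlim.eventually_mem hW).and (eventually_ge_atTop n0)).exists
    have e2 := hn0 (φ n) (le_trans hn2 (hφ.id_le n)) _ hn1
    exact hT.uniq L hL Λ0 hΛ0 _ (h.isLine_image (hg _) (hKU (hq _))) (h1 _) e2
  -- second label
  have hg2 : ∀ n, g (ψ n) * δ ∈ Γ := fun n => Γ.mul_mem (hg _) hδ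
  have hgc2 : Tendsto (fun n => g (ψ n) * δ) atTop cofinite :=
    (mul_left_injective δ).tendsto_cofinite.comp (hgc.comp hψ.tendsto_atTop)
  obtain ⟨ψ', hψ', Λ1, hΛ1, hl1⟩ := h.label hT hUc hUn hg2 hgc2
  have e2 : L' = Λ1 := by
    obtain ⟨q0, hq0, φ, hφ, hlim⟩ := hK.tendsto_subseq (x := fun n => q' (ψ (ψ' n)))
      (fun n => hq' _)
    obtain ⟨W, hW, n0, hn0⟩ := hl1 q0 (hKU hq0)
    obtain ⟨n, hn1, hn2⟩ := ((hlim.eventually_mem hW).and (eventually_ge_atTop n0)).exists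
    have e2 := hn0 (φ n) (le_trans hn2 (hφ.id_le n)) _ hn1
    exact hT.uniq L' hL' Λ1 hΛ1 _ (h.isLine_image (hg2 _) (hKU (hq' _))) (h2 _) e2
  -- compare
  obtain ⟨r, hr⟩ := hUn
  obtain ⟨s, hs, hs2⟩ := h.image_line hδ hr
  obtain ⟨W, hW, n0, hn0⟩ := hl1 r hr
  obtain ⟨W', hW', n1, hn1⟩ := hl0 s hs
  set n := max n0 n1
  have e3 := hn0 n (le_max_left _ _) r (mem_of_mem_nhds hW)
  have e4 := hn1 (ψ' n) (le_trans (le_max_right _ _) (hψ'.id_le n)) s (mem_of_mem_nhds hW')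
  rw [← hs2, ← image_comp] at e4
  have e5 : Λ0 = Λ1 := hT.uniq Λ0 hΛ0 Λ1 hΛ1 _ (h.isLine_image (hg2 (ψ' n)) hr) e4 e3
  rw [e1, e2, e5]

lemma Dat.not_mem_closure_B (h : Dat D Γ) (hf : Fam D Γ K O) (hT : Lab D T)
    (hUc : IsPreconnected (UU D)) (hfin : (LL D).Finite) {p : CP3} (hp : p ∉ D) :
    p ∉ closure {x | ∃ L ∈ LL D, ∃ L' ∈ LL D, L ≠ L' ∧ x ∈ UL Γ O T L ∧ x ∈ UL Γ O T L'} := by
  intro hcl
  obtain ⟨x, hx, hlim⟩ := mem_closure_iff_seq_limit.1 hcl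
  choose L hL L' hL' hne hxL hxL' using hx
  choose g hg q hq hxq hgq using hxL
  choose g' hg' q' hq' hxq' hgq' using hxL'
  have hlim2 : Tendsto (fun n => g n (pt (q n).1)) atTop (𝓝 p) := by
    simpa only [← hxq] using hlim
  have hc := h.tendsto_cofinite hf.compact hf.subU hg (fun n => hf.sub (hq n)) hp hlim2
  set C : Set CP3 := (fun z : E × E => pt z.1) '' K with hC
  have hCc : IsCompact C := by
    apply hf.compact.image_of_continuousOn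
    intro z hz
    exact (ContinuousAt.comp (f := Prod.fst) (continuousAt_pt (ne_zero_of_UU (hf.subU hz)))
      continuousAt_fst).continuousWithinAt
  have hCD : C ⊆ D := by
    rintro _ ⟨z, hz, rfl⟩
    exact pt_mem_of_UU (hf.subU hz)
  have hpd := h.pd C hCc hCD
  set δ : ℕ → Equiv.Perm CP3 := fun n => (g n)⁻¹ * g' n with hδ
  have hδmem : ∀ n, δ n ∈ {g | g ∈ Γ ∧ (g '' C ∩ C).Nonempty} := by
    intro n
    refine ⟨Γ.mul_mem (Γ.inv_mem (hg n)) (hg' n), pt (q n).1, ?_, ?_⟩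
    · refine ⟨pt (q' n).1, ⟨_, hf.sub (hq' n), rfl⟩, ?_⟩
      show (g n)⁻¹ (g' n (pt (q' n).1)) = pt (q n).1
      rw [← hxq', hxq]
      simp
    · exact ⟨_, hf.sub (hq n), rfl⟩
  -- pigeonhole
  have hfin3 : ((LL D ×ˢ LL D) ×ˢ {g | g ∈ Γ ∧ (g '' C ∩ C).Nonempty}).Finite :=
    (hfin.prod hfin).prod hpd
  have hfr : ∃ t ∈ ((LL D ×ˢ LL D) ×ˢ {g | g ∈ Γ ∧ (g '' C ∩ C).Nonempty}),
      ∃ᶠ n in atTop, ((L n, L' n), δ n) = t := by
    by_contra hcon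
    push Not at hcon
    have h1 : ∀ᶠ n in atTop, ∀ t ∈ ((LL D ×ˢ LL D) ×ˢ {g | g ∈ Γ ∧ (g '' C ∩ C).Nonempty}),
        ((L n, L' n), δ n) ≠ t := by
      rw [eventually_all_finite hfin3]
      intro t ht
      exact hcon t ht
    obtain ⟨n, hn⟩ := h1.exists
    exact hn _ ⟨⟨hL n, hL' n⟩, hδmem n⟩ rfl
  obtain ⟨⟨⟨L0, L0'⟩, δ0⟩, ⟨⟨hL0, hL0'⟩, hδ0⟩, hfr⟩ := hfr
  obtain ⟨φ, hφ, hφ2⟩ := extraction_of_frequently_atTop hfr
  have a1 : ∀ n, L (φ n) = L0 := fun n => by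
    have := congrArg (fun t => t.1.1) (hφ2 n); exact this
  have a2 : ∀ n, L' (φ n) = L0' := fun n => by
    have := congrArg (fun t => t.1.2) (hφ2 n); exact this
  have a3 : ∀ n, δ (φ n) = δ0 := fun n => by
    have := congrArg (fun t => t.2) (hφ2 n); exact this
  have h3 : L0 = L0' := by
    apply h.label_eq hf.compact hf.subU hT hUc (g := fun n => g (φ n)) (fun n => hg _)
      (hc.comp hφ.tendsto_atTop) (δ := δ0) hδ0.1 (q := fun n => q (φ n)) (q' := fun n => q' (φ n))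
      (fun n => hf.sub (hq _)) (fun n => hf.sub (hq' _)) hL0 hL0'
    · intro n
      have := hgq (φ n)
      rwa [a1] at this
    · intro n
      have := hgq' (φ n)
      rw [a2] at this
      have e : g (φ n) * δ0 = g' (φ n) := by
        rw [← a3 n]
        simp [hδ]
      rw [e]
      exact this
  exact hne (φ 0) (by rw [a1, a2, h3])

end Pool.Agent.Helper417.Kl
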