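import Pool.Agent.Helper417.Kl.AtPoint

set_option autoImplicit false

namespace Pool.Agent.Helper417.Kl

open Filter Topology Metric Set

variable {D : Set CP3}

lemma dt_eq_zero {v0 v1 v2 v3 : E} {x0 x1 x2 x3 : ℂ}
    (h : x0 • v0 + x1 • v1 + x2 • v2 + x3 • v3 = 0) (hx : x0 ≠ 0 ∨ x1 ≠ 0) :
    dt v0 v1 v2 v3 = 0 := by
  apply Matrix.exists_vecMul_eq_zero_iff.1
  refine ⟨![x0, x1, x2, x3], ?_, ?_⟩
  · intro h0
    have h1 := congrFun h0 0
    have h2 := congrFun h0 1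
    simp only [Matrix.cons_val_zero, Matrix.cons_val_one, Pi.zero_apply] at h1 h2
    rcases hx with h3 | h3
    · exact h3 h1
    · exact h3 h2
  · ext i
    have h2 := congrArg (fun v : E => v i) h
    simp only [Matrix.vecMul, dotProduct, Fin.sum_univ_four]
    fin_cases i <;> simpa using h2

lemma mem_UU_iff_dt {v w : Set CP3 → E} (hL : ∀ L ∈ LL D, Ind (v L) (w L) ∧ L = ln (v L) (w L))
    (hcov : Dᶜ ⊆ ⋃₀ LL D) (hne : (LL D).Nonempty) (p : E × E) :
    p ∈ UU D ↔ ∀ L ∈ LL D, dt p.1 p.2 (v L) (w L) ≠ 0 := by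
  constructor
  · intro hp L hLL
    obtain ⟨hi, hLe⟩ := hL L hLL
    apply dt_ne_zero
    intro x0 x1 x2 x3 hx
    have h1 : ¬ (x0 ≠ 0 ∨ x1 ≠ 0) := by
      intro h2
      have h3 := mem_cone.1 (hp x0 x1 h2)
      have h4 : pt (x0 • p.1 + x1 • p.2) ∈ L := by
        rw [hLe]
        apply (pt_mem_iff h3.1).2
        rw [Submodule.mem_span_pair]
        refine ⟨-x2, -x3, ?_⟩
        rw [neg_smul, neg_smul, ← sub_eq_zero]
        rw [← neg_eq_zero, ← hx]
        abel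
      exact hLL.2 h4 h3.2
    push Not at h1
    obtain ⟨rfl, rfl⟩ := h1
    simp only [zero_smul, zero_add] at hx
    have h5 : ¬ (x2 ≠ 0 ∨ x3 ≠ 0) := fun h6 => hi x2 x3 h6 hx
    push Not at h5
    exact ⟨rfl, rfl, h5.1, h5.2⟩
  · intro h s t hst
    by_contra hcon
    have h1 : ∃ L ∈ LL D, s • p.1 + t • p.2 ∈ Submodule.span ℂ {v L, w L} := by
      by_cases h0 : s • p.1 + t • p.2 = 0
      · obtain ⟨L, hL⟩ := hne
        exact ⟨L, hL, by rw [h0]; exact Submodule.zero_mem _⟩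
      · have h2 : pt (s • p.1 + t • p.2) ∈ Dᶜ := fun h3 => hcon (mem_cone.2 ⟨h0, h3⟩)
        obtain ⟨L, hLL, hLm⟩ := hcov h2
        refine ⟨L, hLL, ?_⟩
        rw [(hL L hLL).2] at hLm
        exact (pt_mem_iff h0).1 hLm
    obtain ⟨L, hLL, hLm⟩ := h1
    rw [Submodule.mem_span_pair] at hLm
    obtain ⟨x, y, hxy⟩ := hLm
    apply h L hLL
    apply dt_eq_zero (x0 := s) (x1 := t) (x2 := -x) (x3 := -y) _ hst
    rw [neg_smul, neg_smul, ← hxy]
    abel

lemma isPreconnected_UU (hfin : (LL D).Finite) (hcov : Dᶜ ⊆ ⋃₀ LL D) (hne : (LL D).Nonempty) :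
    IsPreconnected (UU D) := by
  have h1 : ∀ L : Set CP3, ∃ p : E × E, L ∈ LL D → Ind p.1 p.2 ∧ L = ln p.1 p.2 := by
    intro L
    by_cases hL : L ∈ LL D
    · obtain ⟨p, hp, hp2⟩ := hL.1.exists_ON
      exact ⟨p, fun _ => ⟨ONs.ind hp, hp2⟩⟩
    · exact ⟨0, fun h => absurd h hL⟩
  choose P hP using h1
  have h2 := mem_UU_iff_dt (v := fun L => (P L).1) (w := fun L => (P L).2) hP hcov hne
  set f : E × E → ℂ := fun z => ∏ L ∈ hfin.toFinset, dt z.1 z.2 (P L).1 (P L).2 with hf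
  have hfd : Differentiable ℂ f := by
    apply differentiable_prod
    intro L z
    exact differentiable_dt differentiableAt_fst differentiableAt_snd
      (differentiableAt_const _) (differentiableAt_const _)
  have h3 : ∀ p, p ∈ UU D ↔ f p ≠ 0 := by
    intro p
    rw [h2 p, hf, Finset.prod_ne_zero_iff]
    constructor
    · intro h L hL
      exact h L (hfin.mem_toFinset.1 hL)
    · intro h L hL
      exact h L (hfin.mem_toFinset.2 hL)
  apply isPreconnected_of_forall_pair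
  intro x hx y hy
  have hR : 0 < dist y x + 1 := by positivity
  refine ⟨{z | z ∈ ball x (dist y x + 1) ∧ f z ≠ 0}, fun z hz => (h3 z).2 hz.2,
    ⟨mem_ball_self hR, (h3 x).1 hx⟩, ⟨by rw [mem_ball]; linarith, (h3 y).1 hy⟩,
    Mer.ThinAux.ball_diff hfd.differentiableOn⟩

end Pool.Agent.Helper417.Kl
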